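import Pool.Agent.H685R2.Msol.Logic

/-!
Isolated vertices in monadic second-order logic: a sentence of quantifier depth `r` cannot count
more than `2 ^ r` isolated vertices.
-/

namespace Pool.Agent.Y545.MS

open Pool.Agent.H685R2.Msol

/-- quantifier depth -/
def rank : {n m : ℕ} → Formula n m → ℕ
  | _, _, .eq _ _ => 0
  | _, _, .adj _ _ => 0
  | _, _, .mem _ _ => 0
  | _, _, .not φ => rank φ
  | _, _, .and φ ψ => max (rank φ) (rank ψ)
  | _, _, .exV φ => rank φ + 1
  | _, _, .exS φ => rank φ + 1

/-- swapping two isolated vertices -/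
def swapIso {W : Type} [DecidableEq W] (G : SimpleGraph W) (a b : W) (ha : ∀ w, ¬ G.Adj a w)
    (hb : ∀ w, ¬ G.Adj b w) : G ≃g G where
  toEquiv := Equiv.swap a b
  map_rel_iff' := by
    intro x y
    have key : ∀ x y : W, G.Adj x y → G.Adj (Equiv.swap a b x) (Equiv.swap a b y) := by
      intro x y h
      have hxa : x ≠ a := fun h' => ha y (h' ▸ h)
      have hxb : x ≠ b := fun h' => hb y (h' ▸ h)
      have hya : y ≠ a := fun h' => ha x (h' ▸ h.symm)
      have hyb : y ≠ b := fun h' => hb x (h' ▸ h.symm)
      rwa [Equiv.swap_apply_of_ne_of_ne hxa hxb, Equiv.swap_apply_of_ne_of_ne hya hyb]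
    constructor
    · intro h
      have := key _ _ h
      simpa using this
    · exact key x y

theorem cons_val {W : Type} {P : W → Prop} {n : ℕ} (a : {w // P w}) (v : Fin n → {w // P w}) :
    (fun i => ((Fin.cons a v : Fin (n + 1) → {w // P w}) i).1) =
      (Fin.cons a.1 (fun i => (v i).1) : Fin (n + 1) → W) := by
  funext i
  refine Fin.cases ?_ (fun j => ?_) i <;> simp

theorem cons_pre {W : Type} {P : W → Prop} {n : ℕ} (A : Set W) (S : Fin n → Set W) :
    (fun i => (Subtype.val : {w // P w} → W) ⁻¹' ((Fin.cons A S : Fin (n + 1) → Set W) i)) =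
      (Fin.cons ((Subtype.val : {w // P w} → W) ⁻¹' A)
        (fun i => (Subtype.val : {w // P w} → W) ⁻¹' (S i)) : Fin (n + 1) → Set {w // P w}) := by
  funext i
  refine Fin.cases ?_ (fun j => ?_) i <;> simp

theorem swap_image {W : Type} [DecidableEq W] (a b : W) (X : Set W) (h : a ∈ X ↔ b ∈ X) :
    (Equiv.swap a b) '' X = X := by
  ext x
  rw [Equiv.image_eq_preimage_symm, Equiv.symm_swap, Set.mem_preimage]
  by_cases h1 : x = a
  · subst h1; rw [Equiv.swap_apply_left]; exact h.symm
  · by_cases h2 : x = b
    · subst h2; rw [Equiv.swap_apply_right]; exact h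
    · rw [Equiv.swap_apply_of_ne_of_ne h1 h2]

theorem sat_swap {W : Type} [DecidableEq W] (G : SimpleGraph W) (a b : W)
    (ha : ∀ w, ¬ G.Adj a w) (hb : ∀ w, ¬ G.Adj b w) {p q : ℕ} (φ : Formula p q)
    (v : Fin p → W) (S : Fin q → Set W) :
    Sat G φ v S ↔ Sat G φ (fun i => Equiv.swap a b (v i)) (fun i => Equiv.swap a b '' (S i)) :=
  sat_iso (swapIso G a b ha hb) φ v S

/-- removing one of many indistinguishable isolated vertices -/
theorem sat_del {W : Type} [DecidableEq W] (G : SimpleGraph W) (w0 : W) {p q : ℕ}
    (φ : Formula p q) : ∀ (K : Finset W) (v : Fin p → {w // w ≠ w0}) (S : Fin q → Set W),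
      w0 ∈ K → (∀ k ∈ K, ∀ w, ¬ G.Adj k w) → (∀ k ∈ K, ∀ i, (v i).1 ≠ k) →
      (∀ k ∈ K, ∀ j, k ∈ S j ↔ w0 ∈ S j) → 2 ^ rank φ ≤ K.card →
      (Sat (G.comap (Subtype.val : {w // w ≠ w0} → W)) φ v (fun j => Subtype.val ⁻¹' S j) ↔
        Sat G φ (fun i => (v i).1) S) := by
  induction φ with
  | eq x y => intro K v S _ _ _ _ _; simp only [Sat]; exact Subtype.ext_iff
  | adj x y => intro K v S _ _ _ _ _; simp only [Sat]; rfl
  | mem x X => intro K v S _ _ _ _ _; simp only [Sat]; rfl
  | not φ ih =>
      intro K v S h1 h2 h3 h4 h5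
      simp only [Sat]
      rw [ih K v S h1 h2 h3 h4 h5]
  | and φ ψ ih ih' =>
      intro K v S h1 h2 h3 h4 h5
      simp only [Sat]
      have e1 : 2 ^ rank φ ≤ K.card :=
        le_trans (Nat.pow_le_pow_right (by norm_num) (le_max_left _ _)) h5
      have e2 : 2 ^ rank ψ ≤ K.card :=
        le_trans (Nat.pow_le_pow_right (by norm_num) (le_max_right _ _)) h5
      rw [ih K v S h1 h2 h3 h4 e1, ih' K v S h1 h2 h3 h4 e2]
  | @exV p q φ ih =>
      intro K v S h1 h2 h3 h4 h5
      have h6 : 2 ^ rank φ * 2 ≤ K.card := by
        have : rank (Formula.exV φ) = rank φ + 1 := rfl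
        rwa [this, pow_succ] at h5
      have hpos : 1 ≤ 2 ^ rank φ := Nat.one_le_two_pow
      have step : ∀ a : {w // w ≠ w0},
          (Sat (G.comap (Subtype.val : {w // w ≠ w0} → W)) φ (Fin.cons a v)
            (fun j => Subtype.val ⁻¹' S j) ↔
          Sat G φ (Fin.cons a.1 (fun i => (v i).1) : Fin (p + 1) → W) S) := by
        intro a
        have := ih (K.erase a.1) (Fin.cons a v) S
          (Finset.mem_erase.2 ⟨fun h => a.2 h.symm, h1⟩)
          (fun k hk => h2 k (Finset.mem_of_mem_erase hk))
          (fun k hk i => by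
            refine Fin.cases ?_ (fun j => ?_) i
            · simpa using (Finset.ne_of_mem_erase hk).symm
            · simpa using h3 k (Finset.mem_of_mem_erase hk) j)
          (fun k hk => h4 k (Finset.mem_of_mem_erase hk))
          (by have := Finset.pred_card_le_card_erase (s := K) (a := a.1); omega)
        rw [this, cons_val]
      simp only [Sat]
      constructor
      · rintro ⟨a, ha⟩
        exact ⟨a.1, (step a).1 ha⟩
      · rintro ⟨a, ha⟩
        by_cases h : a = w0
        · subst h
          obtain ⟨b, hb, hba⟩ : ∃ b ∈ K, b ≠ a := by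
            have : (K.erase a).Nonempty := by
              rw [← Finset.card_pos]
              have := Finset.pred_card_le_card_erase (s := K) (a := a)
              omega
            obtain ⟨b, hb⟩ := this
            exact ⟨b, Finset.mem_of_mem_erase hb, Finset.ne_of_mem_erase hb⟩
          refine ⟨⟨b, hba⟩, (step ⟨b, hba⟩).2 ?_⟩
          rw [sat_swap G a b (h2 a h1) (h2 b hb)] at ha
          have e1 : (fun i => Equiv.swap a b ((Fin.cons a (fun i => (v i).1) : Fin (p + 1) → W) i))
              = Fin.cons b (fun i => (v i).1) := by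
            funext i
            refine Fin.cases ?_ (fun j => ?_) i
            · simp
            · simp only [Fin.cons_succ]
              exact Equiv.swap_apply_of_ne_of_ne (h3 a h1 j) (h3 b hb j)
          have e2 : (fun i => Equiv.swap a b '' (S i)) = S := by
            funext i
            exact swap_image a b _ (h4 b hb i).symm
          rwa [e1, e2] at ha
        · exact ⟨⟨a, h⟩, (step ⟨a, h⟩).2 ha⟩
  | @exS p q φ ih =>
      intro K v S h1 h2 h3 h4 h5
      have h6 : 2 ^ rank φ * 2 ≤ K.card := by
        have : rank (Formula.exS φ) = rank φ + 1 := rfl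
        rwa [this, pow_succ] at h5
      have hpos : 1 ≤ 2 ^ rank φ := Nat.one_le_two_pow
      -- a set for which the part of `w0` is large
      have step : ∀ (K' : Finset W) (X : Set W), K' ⊆ K → w0 ∈ K' →
          (∀ k ∈ K', (k ∈ X ↔ w0 ∈ X)) → 2 ^ rank φ ≤ K'.card →
          (Sat (G.comap (Subtype.val : {w // w ≠ w0} → W)) φ v
            (Fin.cons ((Subtype.val : {w // w ≠ w0} → W) ⁻¹' X)
              (fun j => Subtype.val ⁻¹' S j)) ↔
          Sat G φ (fun i => (v i).1) (Fin.cons X S)) := by
        intro K' X hK' hw hX hc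
        rw [← cons_pre]
        exact ih K' v (Fin.cons X S) hw (fun k hk => h2 k (hK' hk)) (fun k hk => h3 k (hK' hk))
          (fun k hk j => by
            refine Fin.cases ?_ (fun j => ?_) j
            · simpa using hX k hk
            · simpa using h4 k (hK' hk) j) hc
      classical
      simp only [Sat]
      constructor
      · rintro ⟨A, hA⟩
        set X : Set W := Subtype.val '' A with hXdef
        have hw0 : w0 ∉ X := by
          rintro ⟨x, -, hx⟩
          exact x.2 hx
        set K1 := K.filter (fun k => k ∉ X) with hK1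
        set K2 := K.filter (fun k => k ∈ X) with hK2
        have hsum : K2.card + K1.card = K.card :=
          Finset.card_filter_add_card_filter_not _
        by_cases hc : 2 ^ rank φ ≤ K1.card
        · refine ⟨X, (step K1 X (Finset.filter_subset _ _)
            (Finset.mem_filter.2 ⟨h1, hw0⟩) (fun k hk => ?_) hc).1 ?_⟩
          · exact iff_of_false (Finset.mem_filter.1 hk).2 hw0
          · rwa [hXdef, Set.preimage_image_eq _ Subtype.val_injective]
        · refine ⟨insert w0 X, (step (insert w0 K2) (insert w0 X)
            (Finset.insert_subset h1 (Finset.filter_subset _ _))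
            (Finset.mem_insert_self _ _) (fun k hk => ?_) ?_).1 ?_⟩
          · refine iff_of_true ?_ (Set.mem_insert _ _)
            rcases Finset.mem_insert.1 hk with rfl | hk
            · exact Set.mem_insert _ _
            · exact Set.mem_insert_of_mem _ (Finset.mem_filter.1 hk).2
          · have := Finset.card_le_card (Finset.subset_insert w0 K2)
            omega
          · have : (Subtype.val : {w // w ≠ w0} → W) ⁻¹' (insert w0 X) = A := by
              ext x
              rw [Set.mem_preimage, Set.mem_insert_iff, hXdef]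
              constructor
              · rintro (h | ⟨y, hy, hyx⟩)
                · exact absurd h x.2
                · rwa [← Subtype.ext hyx]
              · intro h
                exact Or.inr ⟨x, h, rfl⟩
            rwa [this]
      · rintro ⟨X, hX⟩
        set K1 := K.filter (fun k => (k ∈ X ↔ w0 ∈ X)) with hK1
        set K2 := K.filter (fun k => ¬ (k ∈ X ↔ w0 ∈ X)) with hK2
        have hsum : K1.card + K2.card = K.card :=
          Finset.card_filter_add_card_filter_not _
        by_cases hc : 2 ^ rank φ ≤ K1.card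
        · exact ⟨_, (step K1 X (Finset.filter_subset _ _) (Finset.mem_filter.2 ⟨h1, Iff.rfl⟩)
            (fun k hk => (Finset.mem_filter.1 hk).2) hc).2 hX⟩
        · obtain ⟨b, hb⟩ : K2.Nonempty := by
            rw [← Finset.card_pos]
            omega
          have hbK : b ∈ K := (Finset.mem_filter.1 hb).1
          have hbX : ¬ (b ∈ X ↔ w0 ∈ X) := (Finset.mem_filter.1 hb).2
          have hbw : b ≠ w0 := fun h => hbX (by rw [h])
          rw [sat_swap G w0 b (h2 w0 h1) (h2 b hbK)] at hX
          have e1 : (fun i => Equiv.swap w0 b ((v i).1)) = fun i => (v i).1 := by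
            funext i
            exact Equiv.swap_apply_of_ne_of_ne (h3 w0 h1 i) (h3 b hbK i)
          have e2 : (fun i => Equiv.swap w0 b '' ((Fin.cons X S : Fin (q + 1) → Set W) i)) =
              Fin.cons (Equiv.swap w0 b '' X) S := by
            funext i
            refine Fin.cases ?_ (fun j => ?_) i
            · simp
            · simp only [Fin.cons_succ]
              exact swap_image w0 b _ (h4 b hbK j).symm
          rw [e1, e2] at hX
          have hmem : ∀ x, x ∈ Equiv.swap w0 b '' X ↔ Equiv.swap w0 b x ∈ X := by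
            intro x
            rw [Equiv.image_eq_preimage_symm, Equiv.symm_swap, Set.mem_preimage]
          refine ⟨_, (step (insert w0 (K2.erase b)) _ ?_ (Finset.mem_insert_self _ _) ?_ ?_).2 hX⟩
          · exact Finset.insert_subset h1
              ((Finset.erase_subset _ _).trans (Finset.filter_subset _ _))
          · intro k hk
            rcases Finset.mem_insert.1 hk with rfl | hk
            · exact Iff.rfl
            · have hk1 := Finset.ne_of_mem_erase hk
              have hk2 := (Finset.mem_filter.1 (Finset.mem_of_mem_erase hk)).2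
              have hkw : k ≠ w0 := fun h => hk2 (by rw [h])
              rw [hmem, hmem, Equiv.swap_apply_left, Equiv.swap_apply_of_ne_of_ne hkw hk1]
              tauto
          · have hw : w0 ∉ K2.erase b := fun h => by
              have := (Finset.mem_filter.1 (Finset.mem_of_mem_erase h)).2
              exact this Iff.rfl
            rw [Finset.card_insert_of_notMem hw, Finset.card_erase_of_mem hb]
            omega

/-- `H` with `a` isolated vertices added -/
def pad {V : Type} (H : SimpleGraph V) (a : ℕ) : SimpleGraph (V ⊕ Fin a) :=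
  H ⊕g (⊥ : SimpleGraph (Fin a))

theorem pad_succ {V : Type} (H : SimpleGraph V) (φ : Sentence) (a : ℕ)
    (ha : 2 ^ rank φ ≤ a + 1) : Models (pad H a) φ ↔ Models (pad H (a + 1)) φ := by
  classical
  set w0 : V ⊕ Fin (a + 1) := Sum.inr (Fin.last a) with hw0
  have h1 := sat_del (pad H (a + 1)) w0 φ
    (Finset.univ.map ⟨(Sum.inr : Fin (a + 1) → V ⊕ Fin (a + 1)), Sum.inr_injective⟩)
    Fin.elim0 Fin.elim0 (by simp [hw0]) (by
      intro k hk w
      rw [Finset.mem_map] at hk
      obtain ⟨i, -, rfl⟩ := hk
      rcases w with w | w <;> simp [pad]) (fun k _ i => i.elim0) (fun k _ j => j.elim0)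
    (by simpa using ha)
  let f : V ⊕ Fin a ≃ {w : V ⊕ Fin (a + 1) // w ≠ w0} :=
    { toFun := fun x => match x with
        | Sum.inl x => ⟨Sum.inl x, by simp [hw0]⟩
        | Sum.inr i => ⟨Sum.inr i.castSucc, by
            rw [hw0]; intro h; exact (Fin.castSucc_ne_last i) (Sum.inr_injective h)⟩
      invFun := fun x => match x with
        | ⟨Sum.inl x, _⟩ => Sum.inl x
        | ⟨Sum.inr i, h⟩ => Sum.inr (i.castPred (fun h' => h (by rw [h'])))
      left_inv := by rintro (x | x) <;> simp
      right_inv := by rintro ⟨x | x, h⟩ <;> simp }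
  let g : pad H a ≃g (pad H (a + 1)).comap (Subtype.val : {w // w ≠ w0} → V ⊕ Fin (a + 1)) :=
    { toEquiv := f
      map_rel_iff' := by
        rintro (x | x) (y | y) <;> simp [f, pad] }
  rw [models_iso g]
  unfold Models
  have e1 : (fun i : Fin 0 => ((Fin.elim0 : Fin 0 → {w // w ≠ w0}) i).1) =
      (Fin.elim0 : Fin 0 → V ⊕ Fin (a + 1)) := funext fun i => i.elim0
  have e2 : (fun j : Fin 0 => (Subtype.val : {w // w ≠ w0} → V ⊕ Fin (a + 1)) ⁻¹'
      ((Fin.elim0 : Fin 0 → Set (V ⊕ Fin (a + 1))) j)) = Fin.elim0 := funext fun i => i.elim0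
  rw [e1, e2] at h1
  exact h1

theorem pad_stable {V : Type} (H : SimpleGraph V) (φ : Sentence) (a b : ℕ)
    (ha : 2 ^ rank φ ≤ a) (hab : a ≤ b) : Models (pad H a) φ ↔ Models (pad H b) φ := by
  induction b, hab using Nat.le_induction with
  | base => exact Iff.rfl
  | succ b hb ih => exact ih.trans (pad_succ H φ b (by omega))

end Pool.Agent.Y545.MS
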