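import Pool.Agent.H685R2.Msol.Grid
import Pool.Agent.Y545.MS1

/-!
Graphs of linear clique-width: Hadamard graphs with few isolated vertices added.
-/

namespace Pool.Agent.Y545.MS

open Pool.Agent.H685R2.Msol

/-- the number of common ones of two vectors of bits -/
def ip {d : ℕ} (x y : Fin d → Bool) : ℕ :=
  (Finset.univ.filter fun i => x i = true ∧ y i = true).card

/-- The Hadamard graph: the vertices are the vectors of `d` bits, two different vertices are
adjacent if the number of their common ones is odd. -/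
def had (d : ℕ) : SimpleGraph (Fin d → Bool) where
  Adj x y := x ≠ y ∧ Odd (ip x y)
  symm := ⟨by
    rintro x y ⟨h1, h2⟩
    refine ⟨h1.symm, ?_⟩
    have : ip y x = ip x y := by
      unfold ip
      congr 1
      ext i
      simp [and_comm]
    rwa [this]⟩
  loopless := ⟨fun x h => h.1 rfl⟩

theorem sign_ip {d : ℕ} (x y : Fin d → Bool) :
    (-1 : ℤ) ^ ip x y = ∏ i, (if x i = true ∧ y i = true then (-1 : ℤ) else 1) := by
  unfold ip
  rw [Finset.prod_ite]
  simp

theorem orth {d : ℕ} (x x' : Fin d → Bool) :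
    ∑ y : Fin d → Bool, (-1 : ℤ) ^ ip x y * (-1 : ℤ) ^ ip x' y =
      if x = x' then 2 ^ d else 0 := by
  simp_rw [sign_ip, ← Finset.prod_mul_distrib]
  have h := Finset.prod_univ_sum (fun _ : Fin d => (Finset.univ : Finset Bool))
    (fun i b => (if x i = true ∧ b = true then (-1 : ℤ) else 1) *
      (if x' i = true ∧ b = true then (-1 : ℤ) else 1))
  rw [Fintype.piFinset_univ] at h
  rw [← h]
  by_cases hx : x = x'
  · rw [if_pos hx, hx]
    have : ∀ i : Fin d, (∑ b : Bool, (if x' i = true ∧ b = true then (-1 : ℤ) else 1) *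
      (if x' i = true ∧ b = true then (-1 : ℤ) else 1)) = 2 := by
      intro i
      cases x' i <;> simp
    rw [Finset.prod_congr rfl fun i _ => this i]
    simp
  · rw [if_neg hx]
    obtain ⟨i, hi⟩ := Function.ne_iff.1 hx
    apply Finset.prod_eq_zero (Finset.mem_univ i)
    cases h1 : x i <;> cases h2 : x' i <;> simp_all

/-- Lindsey's lemma for homogeneous pairs -/
theorem lindsey {d : ℕ} (A B : Finset (Fin d → Bool)) (c : Prop)
    (h : ∀ x ∈ A, ∀ y ∈ B, (Odd (ip x y) ↔ c)) : A.card * B.card ≤ 2 ^ d := by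
  classical
  rcases A.eq_empty_or_nonempty with rfl | hA
  · simp
  have h1 : ∑ y : Fin d → Bool, (∑ x ∈ A, (-1 : ℤ) ^ ip x y) ^ 2 = 2 ^ d * A.card := by
    have : ∀ y : Fin d → Bool, (∑ x ∈ A, (-1 : ℤ) ^ ip x y) ^ 2 =
        ∑ x ∈ A, ∑ x' ∈ A, (-1 : ℤ) ^ ip x y * (-1 : ℤ) ^ ip x' y := by
      intro y
      rw [sq, Finset.sum_mul_sum]
    simp_rw [this]
    rw [Finset.sum_comm]
    have h2 : ∀ x ∈ A, ∑ y : Fin d → Bool, ∑ x' ∈ A, (-1 : ℤ) ^ ip x y * (-1 : ℤ) ^ ip x' y =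
        2 ^ d := by
      intro x hx
      rw [Finset.sum_comm]
      simp_rw [orth]
      simp [hx]
    rw [Finset.sum_congr rfl h2]
    simp [mul_comm]
  have h2 : ∀ y ∈ B, (∑ x ∈ A, (-1 : ℤ) ^ ip x y) ^ 2 = (A.card : ℤ) ^ 2 := by
    intro y hy
    by_cases hc : c
    · rw [Finset.sum_congr rfl fun x hx => ((h x hx y hy).2 hc).neg_one_pow]
      simp
    · rw [Finset.sum_congr rfl fun x hx =>
        (Nat.not_odd_iff_even.1 (fun h' => hc ((h x hx y hy).1 h'))).neg_one_pow]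
      simp
  have h3 : (B.card : ℤ) * (A.card : ℤ) ^ 2 ≤ 2 ^ d * A.card := by
    rw [← h1]
    calc (B.card : ℤ) * (A.card : ℤ) ^ 2 = ∑ y ∈ B, (∑ x ∈ A, (-1 : ℤ) ^ ip x y) ^ 2 := by
          rw [Finset.sum_congr rfl h2]; simp
      _ ≤ _ := Finset.sum_le_sum_of_subset_of_nonneg (Finset.subset_univ _)
          (fun _ _ _ => sq_nonneg _)
  have hpos : (0 : ℤ) < A.card := by exact_mod_cast hA.card_pos
  have h4 : (A.card : ℤ) * B.card ≤ 2 ^ d := by
    by_contra hcon
    push Not at hcon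
    nlinarith
  exact_mod_cast h4

theorem cut_bound {d k a : ℕ} (A : Set ((Fin d → Bool) ⊕ Fin a))
    (lab : (Fin d → Bool) ⊕ Fin a → Fin k)
    (h : ∀ u ∈ A, ∀ v ∈ A, lab u = lab v → ∀ w, w ∉ A →
      ((pad (had d) a).Adj u w ↔ (pad (had d) a).Adj v w)) :
    (Sum.inl ⁻¹' A).ncard * (Sum.inl ⁻¹' A)ᶜ.ncard ≤ k * (2 * 2 ^ d) := by
  classical
  set A0 : Finset (Fin d → Bool) := Finset.univ.filter fun x => Sum.inl x ∈ A with hA0
  set B0 : Finset (Fin d → Bool) := Finset.univ.filter fun x => Sum.inl x ∉ A with hB0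
  have e1 : (Sum.inl ⁻¹' A : Set (Fin d → Bool)).ncard = A0.card := by
    rw [← Set.ncard_coe_finset]
    congr 1
    ext x
    simp [hA0]
  have e2 : ((Sum.inl ⁻¹' A)ᶜ : Set (Fin d → Bool)).ncard = B0.card := by
    rw [← Set.ncard_coe_finset]
    congr 1
    ext x
    simp [hB0]
  rw [e1, e2]
  have hfib : ∀ l : Fin k, (A0.filter fun x => lab (Sum.inl x) = l).card * B0.card ≤
      2 * 2 ^ d := by
    intro l
    set Al := A0.filter fun x => lab (Sum.inl x) = l with hAl
    rcases Al.eq_empty_or_nonempty with he | ⟨u0, hu0⟩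
    · rw [he]; simp
    have hmem : ∀ u ∈ Al, Sum.inl u ∈ A ∧ lab (Sum.inl u) = l := by
      intro u hu
      rw [hAl, Finset.mem_filter, hA0, Finset.mem_filter] at hu
      exact ⟨hu.1.2, hu.2⟩
    have hadj : ∀ u ∈ Al, ∀ w ∈ B0, (Odd (ip u w) ↔ Odd (ip u0 w)) := by
      intro u hu w hw
      have hwA : Sum.inl w ∉ A := (Finset.mem_filter.1 hw).2
      have h1 := h _ (hmem u hu).1 _ (hmem u0 hu0).1
        ((hmem u hu).2.trans (hmem u0 hu0).2.symm) _ hwA
      have hne : u ≠ w := fun h' => hwA (h' ▸ (hmem u hu).1)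
      have hne0 : u0 ≠ w := fun h' => hwA (h' ▸ (hmem u0 hu0).1)
      simpa [pad, had, hne, hne0] using h1
    have h1 := lindsey Al (B0.filter fun w => Odd (ip u0 w)) True (fun x hx y hy => by
      rw [hadj x hx y (Finset.mem_filter.1 hy).1]
      exact iff_true_intro (Finset.mem_filter.1 hy).2)
    have h2 := lindsey Al (B0.filter fun w => ¬ Odd (ip u0 w)) False (fun x hx y hy => by
      rw [hadj x hx y (Finset.mem_filter.1 hy).1]
      exact iff_false_intro (Finset.mem_filter.1 hy).2)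
    have h3 : (B0.filter fun w => Odd (ip u0 w)).card +
        (B0.filter fun w => ¬ Odd (ip u0 w)).card = B0.card :=
      Finset.card_filter_add_card_filter_not _
    rw [← h3, Nat.mul_add]
    omega
  have hsum : A0.card = ∑ l : Fin k, (A0.filter fun x => lab (Sum.inl x) = l).card :=
    Finset.card_eq_sum_card_fiberwise (fun _ _ => Finset.mem_univ _)
  rw [hsum, Finset.sum_mul]
  calc ∑ l : Fin k, (A0.filter fun x => lab (Sum.inl x) = l).card * B0.card
      ≤ ∑ _l : Fin k, 2 * 2 ^ d := Finset.sum_le_sum fun l _ => hfib l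
    _ = k * (2 * 2 ^ d) := by simp

theorem le_of_expr_had {d a k : ℕ} (hd : 3 ≤ d) (ha : 8 * a ≤ 2 ^ d) (e : Expr k)
    (f : e.graph ≃g pad (had d) a) : 2 ^ d + a ≤ 33 * k := by
  classical
  set n := 2 ^ d with hn
  have hn8 : 8 ≤ n := by
    rw [hn]
    calc 8 = 2 ^ 3 := by norm_num
      _ ≤ 2 ^ d := Nat.pow_le_pow_right (by norm_num) hd
  have hcard : Nat.card ((Fin d → Bool) ⊕ Fin a) = n + a := by
    rw [Nat.card_eq_fintype_card]
    simp [hn]
  obtain ⟨A, lab, h1, h2, h3⟩ := exists_thin_set e f (n / 3) (by omega) (by rw [hcard]; omega)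
  have h4 := cut_bound A lab h3
  -- sizes
  have h5 : A.ncard ≤ (Sum.inl ⁻¹' A : Set (Fin d → Bool)).ncard + a := by
    have e1 : A ⊆ Sum.inl '' (Sum.inl ⁻¹' A : Set (Fin d → Bool)) ∪ Set.range Sum.inr := by
      rintro (x | x) hx
      · exact Or.inl ⟨x, hx, rfl⟩
      · exact Or.inr ⟨x, rfl⟩
    have e2 := (Set.ncard_le_ncard e1).trans (Set.ncard_union_le _ _)
    rw [Set.ncard_image_of_injective _ Sum.inl_injective] at e2
    have e3 : (Set.range (Sum.inr : Fin a → (Fin d → Bool) ⊕ Fin a)).ncard = a := by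
      rw [← Set.image_univ, Set.ncard_image_of_injective _ Sum.inr_injective, Set.ncard_univ]
      simp
    omega
  have h6 : (Sum.inl ⁻¹' A : Set (Fin d → Bool)).ncard ≤ A.ncard := by
    rw [← Set.ncard_image_of_injective (Sum.inl ⁻¹' A : Set (Fin d → Bool))
      (Sum.inl_injective (β := Fin a))]
    refine Set.ncard_le_ncard ?_ (Set.toFinite _)
    rintro _ ⟨x, hx, rfl⟩
    exact hx
  have h7 := Set.ncard_add_ncard_compl (Sum.inl ⁻¹' A : Set (Fin d → Bool))
  have h8 : Nat.card (Fin d → Bool) = n := by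
    rw [Nat.card_eq_fintype_card]
    simp [hn]
  rw [h8] at h7
  set x := (Sum.inl ⁻¹' A : Set (Fin d → Bool)).ncard with hx
  set y := ((Sum.inl ⁻¹' A)ᶜ : Set (Fin d → Bool)).ncard with hy
  set t := n / 3 with ht
  have ht1 : 3 * t ≤ n := Nat.mul_div_le n 3
  have ht2 : n ≤ 3 * t + 2 := by omega
  have h9 : 5 * n ≤ 24 * x + 16 := by omega
  have h10 : n + 6 ≤ 3 * y := by omega
  have h11 : 5 * n * n ≤ 144 * k * n := by
    have e1 : (5 * n - 16) * (n + 6) ≤ (24 * x) * (3 * y) :=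
      Nat.mul_le_mul (by omega) h10
    have e2 : (24 * x) * (3 * y) = 72 * (x * y) := by ring
    have e3 : 72 * (x * y) ≤ 72 * (k * (2 * n)) := Nat.mul_le_mul_left _ h4
    obtain ⟨m, hm⟩ : ∃ m, n = m + 8 := ⟨n - 8, by omega⟩
    rw [hm] at e1 e3 ⊢
    have e4 : 5 * (m + 8) - 16 = 5 * m + 24 := by omega
    rw [e4] at e1
    nlinarith
  have h12 : 5 * n ≤ 144 * k := Nat.le_of_mul_le_mul_right h11 (by omega)
  omega

/-- Hadamard graphs with few isolated vertices have linear clique-width. -/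
theorem le_cliqueWidth_had {d a : ℕ} (hd : 3 ≤ d) (ha : 8 * a ≤ 2 ^ d) :
    2 ^ d + a ≤ 33 * cliqueWidth (pad (had d) a) := by
  obtain ⟨e, ⟨f⟩⟩ := cliqueWidth_spec (pad (had d) a)
  exact le_of_expr_had hd ha e f

end Pool.Agent.Y545.MS
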