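import Mathlib

set_option autoImplicit false

/-! Isomorphisms between finite graphs that are flips of graphs with many isolated vertices in
every layer respect the graphs before the flip. -/

namespace Pool.Agent.Y545.GI

variable {T T' Λ : Type}

/-- twins -/
def Tw (E : T → T → Prop) (u v : T) : Prop := u ≠ v ∧ ∀ w, w ≠ u → w ≠ v → (E u w ↔ E v w)

/-- the flip -/
def Fl (F : Λ → Λ → Prop) (l : T → Λ) (Y : T → T → Prop) (u v : T) : Prop :=
  ¬ (Y u v ↔ F (l u) (l v))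

/-- `M` isolated vertices in every layer, and fewer vertices that are not isolated -/
structure Rich (l : T → Λ) (Y : T → T → Prop) (M : ℕ) : Prop where
  sy : ∀ u v, Y u v → Y v u
  irr : ∀ u, ¬ Y u u
  many : ∀ a : Λ, ∃ z : Fin M → T, Function.Injective z ∧ ∀ m, l (z m) = a ∧ ∀ v, ¬ Y (z m) v
  few : ∃ s : Finset T, s.card + 4 ≤ M ∧ ∀ u, (∃ v, Y u v) → u ∈ s

section one

variable {l : T → Λ} {Y : T → T → Prop} {M : ℕ} {F : Λ → Λ → Prop}

theorem Rich.out (h : Rich l Y M) (a : Λ) (s : Finset T) (hs : s.card < M) :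
    ∃ z, z ∉ s ∧ l z = a ∧ ∀ v, ¬ Y z v := by
  classical
  obtain ⟨z, h1, h2⟩ := h.many a
  by_contra hc
  push Not at hc
  have h3 : ∀ m, z m ∈ s := by
    intro m
    by_contra h4
    obtain ⟨v, hv⟩ := hc (z m) h4 (h2 m).1
    exact (h2 m).2 v hv
  have h4 : M ≤ s.card := by
    have h5 := Finset.card_le_card_of_injOn (s := (Finset.univ : Finset (Fin M))) (t := s) z
      (fun m _ => h3 m) (fun a _ b _ hab => h1 hab)
    simpa using h5
  omega

theorem Rich.four (h : Rich l Y M) : 4 ≤ M := by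
  obtain ⟨s, hs, -⟩ := h.few
  omega

/-- an isolated vertex has many twins -/
theorem Rich.twins (h : Rich l Y M) {u : T} (hu : ∀ v, ¬ Y u v) :
    ∃ z : Fin (M - 1) → T, Function.Injective z ∧ ∀ m, Tw (Fl F l Y) u (z m) := by
  classical
  obtain ⟨z, h1, h2⟩ := h.many (l u)
  have key : ∀ v, v ≠ u → l v = l u → (∀ w, ¬ Y v w) → Tw (Fl F l Y) u v := by
    intro v hv hl hi
    refine ⟨hv.symm, fun w _ _ => ?_⟩
    unfold Fl
    have e1 := hu w
    have e2 := hi w
    rw [hl]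
    tauto
  have hM := h.four
  by_cases hm : ∃ m0, z m0 = u
  · obtain ⟨m0, hm0⟩ := hm
    have e : Fin (M - 1) ≃ {m : Fin M // m ≠ m0} := by
      refine Fintype.equivOfCardEq ?_
      rw [Fintype.card_subtype_compl]
      simp
    refine ⟨fun m => z (e m).1, fun a b hab => e.injective (Subtype.ext (h1 hab)), fun m => ?_⟩
    exact key _ (fun h3 => (e m).2 (h1 (h3.trans hm0.symm))) (h2 _).1 (h2 _).2
  · push Not at hm
    refine ⟨fun m => z (Fin.castLE (Nat.sub_le _ _) m), fun a b hab => ?_, fun m =>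
      key _ (hm _) (h2 _).1 (h2 _).2⟩
    exact Fin.castLE_injective _ (h1 hab)

/-- a vertex which is not isolated has few twins -/
theorem Rich.few_twins (h : Rich l Y M) {u : T} (hu : ∃ v, Y u v)
    (z : Fin (M - 1) → T) (hz : Function.Injective z) (hz' : ∀ m, Tw (Fl F l Y) u (z m)) :
    False := by
  classical
  obtain ⟨s, hs, hs'⟩ := h.few
  have h3 : ∀ m, z m ∈ s := by
    intro m
    refine hs' _ ?_
    by_contra h4
    push Not at h4
    obtain ⟨w, hw⟩ := hu
    have hwu : w ≠ u := fun e => h.irr u (by rw [e] at hw; exact hw)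
    have hwz : w ≠ z m := fun e => h4 u (h.sy _ _ (by rw [← e]; exact hw))
    obtain ⟨w', h5, h6, h7⟩ := h.out (l w) {z m} (by have := h.four; simp; omega)
    rw [Finset.mem_singleton] at h5
    have hw'u : w' ≠ u := fun e => h7 w (by rw [e]; exact hw)
    have k1 := (hz' m).2 w hwu hwz
    have k2 := (hz' m).2 w' hw'u h5
    have k3 : ¬ Y u w' := fun h' => h7 _ (h.sy _ _ h')
    have k4 := h4 w
    have k5 := h4 w'
    unfold Fl at k1 k2
    rw [h6] at k2
    tauto
  have h4 : M - 1 ≤ s.card := by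
    have h5 := Finset.card_le_card_of_injOn (s := (Finset.univ : Finset (Fin (M - 1)))) (t := s) z
      (fun m _ => h3 m) (fun a _ b _ hab => hz hab)
    simpa using h5
  omega

end one

variable {F : Λ → Λ → Prop} {l : T → Λ} {Y : T → T → Prop} {l' : T' → Λ} {Y' : T' → T' → Prop}
  {M : ℕ}

/-- isomorphisms map isolated vertices to isolated vertices -/
theorem iso_isolated (h : Rich l Y M) (h' : Rich l' Y' M) (φ : T ≃ T')
    (hφ : ∀ u v, u ≠ v → (Fl F l Y u v ↔ Fl F l' Y' (φ u) (φ v))) {u : T} (hu : ∀ v, ¬ Y u v) :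
    ∀ v, ¬ Y' (φ u) v := by
  obtain ⟨z, h1, h2⟩ := h.twins (F := F) hu
  intro v hv
  refine h'.few_twins (F := F) ⟨v, hv⟩ (fun m => φ (z m)) (φ.injective.comp h1) fun m => ?_
  obtain ⟨h3, h4⟩ := h2 m
  refine ⟨fun e => h3 (φ.injective e), fun w hw1 hw2 => ?_⟩
  obtain ⟨w, rfl⟩ := φ.surjective w
  have n1 : w ≠ u := fun e => hw1 (by rw [e])
  have n2 : w ≠ z m := fun e => hw2 (by rw [e])
  rw [← hφ _ _ n1.symm, ← hφ _ _ n2.symm]
  exact h4 w n1 n2

theorem fl_symm_iso (φ : T ≃ T')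
    (hφ : ∀ u v, u ≠ v → (Fl F l Y u v ↔ Fl F l' Y' (φ u) (φ v))) (u v : T') (huv : u ≠ v) :
    Fl F l' Y' u v ↔ Fl F l Y (φ.symm u) (φ.symm v) := by
  rw [hφ _ _ fun e => huv (φ.symm.injective e), φ.apply_symm_apply, φ.apply_symm_apply]

/-- isomorphisms of the flips respect the graphs -/
theorem unflip (hF : ∀ a b, F a b → F b a) (h : Rich l Y M) (h' : Rich l' Y' M) (φ : T ≃ T')
    (hφ : ∀ u v, u ≠ v → (Fl F l Y u v ↔ Fl F l' Y' (φ u) (φ v))) (u v : T) (huv : u ≠ v) :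
    Y u v ↔ Y' (φ u) (φ v) := by
  classical
  have hM := h.four
  have sF : ∀ a b, F a b ↔ F b a := fun a b => ⟨hF a b, hF b a⟩
  have fwd : ∀ {u : T}, (∀ v, ¬ Y u v) → ∀ v, ¬ Y' (φ u) v := fun hu => iso_isolated h h' φ hφ hu
  have bwd : ∀ {u : T'}, (∀ v, ¬ Y' u v) → ∀ v, ¬ Y (φ.symm u) v := fun hu =>
    iso_isolated h' h φ.symm (fl_symm_iso φ hφ) hu
  -- the row of the flip
  have row : ∀ u z, z ≠ u → l z = l u → (∀ v, ¬ Y z v) → ∀ a, F (l' (φ u)) a ↔ F (l' (φ z)) a := by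
    intro u z hzu hl hz a
    obtain ⟨w', h1, h2, h3⟩ := h'.out a {φ u, φ z}
      (lt_of_le_of_lt (Finset.card_insert_le _ _) (by simp; omega))
    simp only [Finset.mem_insert, Finset.mem_singleton, not_or] at h1
    have h4 := bwd h3
    have e1 : φ (φ.symm w') = w' := φ.apply_symm_apply w'
    have n1 : φ.symm w' ≠ u := fun e => h1.1 (by rw [← e, e1])
    have n2 : φ.symm w' ≠ z := fun e => h1.2 (by rw [← e, e1])
    have k1 := hφ u (φ.symm w') n1.symm
    have k2 := hφ z (φ.symm w') n2.symm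
    rw [e1] at k1 k2
    have m1 : ¬ Y u (φ.symm w') := fun e => h4 _ (h.sy _ _ e)
    have m2 : ¬ Y z (φ.symm w') := hz _
    have m3 : ¬ Y' (φ u) w' := fun e => h3 _ (h'.sy _ _ e)
    have m4 : ¬ Y' (φ z) w' := fun e => h3 _ (h'.sy _ _ e)
    unfold Fl at k1 k2
    rw [h2] at k1 k2
    rw [hl] at k2
    tauto
  obtain ⟨z, hz1, hz2, hz3⟩ := h.out (l u) {u, v}
    (lt_of_le_of_lt (Finset.card_insert_le _ _) (by simp; omega))
  obtain ⟨z', hz1', hz2', hz3'⟩ := h.out (l v) {u, v, z}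
    (lt_of_le_of_lt Finset.card_le_three (by omega))
  simp only [Finset.mem_insert, Finset.mem_singleton, not_or] at hz1 hz1'
  have r1 := row u z hz1.1 hz2 hz3
  have r2 := row v z' hz1'.2.1 hz2' hz3'
  have k := hφ z z' (Ne.symm hz1'.2.2)
  have m1 : ¬ Y z z' := hz3 _
  have m2 : ¬ Y' (φ z) (φ z') := fwd hz3 _
  have key : F (l u) (l v) ↔ F (l' (φ u)) (l' (φ v)) := by
    have q1 := r1 (l' (φ v))
    have q2 := r2 (l' (φ z))
    have q3 := sF (l' (φ z)) (l' (φ v))
    have q4 := sF (l' (φ z')) (l' (φ z))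
    unfold Fl at k
    rw [hz2, hz2'] at k
    rw [q1, q3, q2, q4]
    tauto
  have k2 := hφ u v huv
  unfold Fl at k2
  tauto

end Pool.Agent.Y545.GI
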