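import Mathlib

set_option autoImplicit false

/-! Subgraphs of the star and clique crossings given by a bipartite graph, and the recovery of the
relation: two rows have a common column. -/

namespace Pool.Agent.Y545.GI

/-- The vertices of the part of an `r`-crossing that belongs to the bipartite graph `S` between
rows and columns: the roots of the rows and of the columns, the inner vertices of the paths for the
edges of `S`, and `M` further vertices in each layer. -/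
inductive Vt {Ro Co : Type} (S : Ro → Co → Prop) (r M : ℕ) : Type
  | a (i : Ro)
  | b (j : Co)
  | p (i : Ro) (j : Co) (h : S i j) (t : Fin r)
  | z (l : Fin (r + 2)) (m : Fin M)

section rel

variable {T : Type}

/-- at least three neighbours -/
def Big (Y : T → T → Prop) (u : T) : Prop :=
  ∃ a b c, a ≠ b ∧ a ≠ c ∧ b ≠ c ∧ Y u a ∧ Y u b ∧ Y u c

/-- simplicial -/
def Si (Y : T → T → Prop) (c : T) : Prop := ∀ u v, Y c u → Y c v → u ≠ v → Y u v

/-- roots -/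
def Rt (s : Bool) (Y : T → T → Prop) (u : T) : Prop := Big Y u ∧ (s = true → Si Y u)

/-- vertices that are not roots and have no root as neighbour -/
def Inn (s : Bool) (Y : T → T → Prop) (u : T) : Prop := ¬ Rt s Y u ∧ ∀ v, Rt s Y v → ¬ Y v u

/-- linked roots -/
def Lk (s : Bool) (Y : T → T → Prop) (u v : T) : Prop :=
  u ≠ v ∧ ∃ x y, ¬ Rt s Y x ∧ ¬ Rt s Y y ∧ Y u x ∧ Y v y ∧ (Y x y ∨ ∃ z z', Inn s Y z ∧ Inn s Y z' ∧
    Y x z ∧ Y y z' ∧ Relation.ReflTransGen (fun p q => Inn s Y p ∧ Inn s Y q ∧ Y p q) z z')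

variable {T' : Type} {Y : T → T → Prop} {Y' : T' → T' → Prop}

theorem big_map (e : T ≃ T') (h : ∀ u v, Y u v ↔ Y' (e u) (e v)) {u : T} (hu : Big Y u) :
    Big Y' (e u) := by
  obtain ⟨a, b, c, h1, h2, h3, h4, h5, h6⟩ := hu
  exact ⟨e a, e b, e c, fun h' => h1 (e.injective h'), fun h' => h2 (e.injective h'),
    fun h' => h3 (e.injective h'), (h _ _).1 h4, (h _ _).1 h5, (h _ _).1 h6⟩

theorem si_map (e : T ≃ T') (h : ∀ u v, Y u v ↔ Y' (e u) (e v)) {u : T} (hu : Si Y u) :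
    Si Y' (e u) := by
  intro v w hv hw hvw
  obtain ⟨v, rfl⟩ := e.surjective v
  obtain ⟨w, rfl⟩ := e.surjective w
  exact (h _ _).1 (hu v w ((h _ _).2 hv) ((h _ _).2 hw) fun e' => hvw (by rw [e']))

theorem rt_map (s : Bool) (e : T ≃ T') (h : ∀ u v, Y u v ↔ Y' (e u) (e v)) {u : T}
    (hu : Rt s Y u) : Rt s Y' (e u) := ⟨big_map e h hu.1, fun hs => si_map e h (hu.2 hs)⟩

theorem symm_map (e : T ≃ T') (h : ∀ u v, Y u v ↔ Y' (e u) (e v)) (u v : T') :
    Y' u v ↔ Y (e.symm u) (e.symm v) := by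
  rw [h, e.apply_symm_apply, e.apply_symm_apply]

theorem rt_iff_map (s : Bool) (e : T ≃ T') (h : ∀ u v, Y u v ↔ Y' (e u) (e v)) {u : T} :
    Rt s Y u ↔ Rt s Y' (e u) := by
  refine ⟨rt_map s e h, fun h1 => ?_⟩
  have h2 := rt_map s e.symm (symm_map e h) h1
  rwa [e.symm_apply_apply] at h2

theorem inn_map (s : Bool) (e : T ≃ T') (h : ∀ u v, Y u v ↔ Y' (e u) (e v)) {u : T}
    (hu : Inn s Y u) : Inn s Y' (e u) := by
  refine ⟨fun h' => hu.1 ((rt_iff_map s e h).2 h'), fun v hv hv' => ?_⟩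
  obtain ⟨v, rfl⟩ := e.surjective v
  exact hu.2 v ((rt_iff_map s e h).2 hv) ((h _ _).2 hv')

theorem lk_map (s : Bool) (e : T ≃ T') (h : ∀ u v, Y u v ↔ Y' (e u) (e v)) {u v : T}
    (hu : Lk s Y u v) : Lk s Y' (e u) (e v) := by
  obtain ⟨h1, x, y, h2, h3, h4, h5, h6⟩ := hu
  refine ⟨fun h' => h1 (e.injective h'), e x, e y, fun h' => h2 ((rt_iff_map s e h).2 h'),
    fun h' => h3 ((rt_iff_map s e h).2 h'), (h _ _).1 h4, (h _ _).1 h5, ?_⟩
  rcases h6 with h6 | ⟨z, z', h7, h8, h9, h10, h11⟩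
  · exact Or.inl ((h _ _).1 h6)
  · refine Or.inr ⟨e z, e z', inn_map s e h h7, inn_map s e h h8, (h _ _).1 h9, (h _ _).1 h10, ?_⟩
    clear h8 h9 h10
    induction h11 with
    | refl => exact Relation.ReflTransGen.refl
    | tail _ h12 ih =>
      exact ih.tail ⟨inn_map s e h h12.1, inn_map s e h h12.2.1, (h _ _).1 h12.2.2⟩

theorem lk_iff_map (s : Bool) (e : T ≃ T') (h : ∀ u v, Y u v ↔ Y' (e u) (e v)) {u v : T} :
    Lk s Y u v ↔ Lk s Y' (e u) (e v) := by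
  refine ⟨lk_map s e h, fun h1 => ?_⟩
  have h2 := lk_map s e.symm (symm_map e h) h1
  rwa [e.symm_apply_apply, e.symm_apply_apply] at h2

end rel

variable {Ro Co : Type} {S : Ro → Co → Prop} {r M : ℕ}

/-- the edges in one direction -/
def arcV (s : Bool) : Vt S r M → Vt S r M → Prop
  | .a i, .p i' _ _ t => i = i' ∧ (t : ℕ) = 0
  | .p _ j _ t, .b j' => j' = j ∧ (t : ℕ) + 1 = r
  | .p i j _ t, .p i' j' _ t' => (i = i' ∧ j = j' ∧ (t' : ℕ) = t + 1) ∨
      (s = true ∧ ((i = i' ∧ j ≠ j' ∧ (t : ℕ) = 0 ∧ (t' : ℕ) = 0) ∨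
        (j = j' ∧ i ≠ i' ∧ (t : ℕ) + 1 = r ∧ (t' : ℕ) + 1 = r)))
  | _, _ => False

/-- the graph -/
def YV (s : Bool) (u v : Vt S r M) : Prop := arcV s u v ∨ arcV s v u

/-- the layers -/
def Vt.lay : Vt S r M → Fin (r + 2)
  | .a _ => 0
  | .b _ => Fin.last (r + 1)
  | .p _ _ _ t => t.succ.castSucc
  | .z l _ => l

theorem yv_symm {s : Bool} {u v : Vt S r M} (h : YV s u v) : YV s v u := h.symm

theorem yv_irr (s : Bool) (u : Vt S r M) : ¬ YV s u u := by
  rintro (h | h) <;> cases u <;> simp [arcV] at h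

theorem yv_z (s : Bool) (l : Fin (r + 2)) (m : Fin M) (v : Vt S r M) : ¬ YV s (.z l m) v := by
  rintro (h | h) <;> cases v <;> exact h

theorem yv_a {s : Bool} {i : Ro} {v : Vt S r M} :
    YV s (.a i) v ↔ ∃ j h t, v = .p i j h t ∧ (t : ℕ) = 0 := by
  constructor
  · rintro (h | h)
    · rcases v with _ | _ | ⟨i', j, hj, t⟩ | _ <;> try exact h.elim
      obtain ⟨rfl, h2⟩ := h
      exact ⟨j, hj, t, rfl, h2⟩
    · rcases v with _ | _ | ⟨i', j, hj, t⟩ | _ <;> exact h.elim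
  · rintro ⟨j, h, t, rfl, h2⟩
    exact Or.inl ⟨rfl, h2⟩

theorem yv_b {s : Bool} {j : Co} {v : Vt S r M} :
    YV s (.b j) v ↔ ∃ i h t, v = .p i j h t ∧ (t : ℕ) + 1 = r := by
  constructor
  · rintro (h | h)
    · rcases v with _ | _ | ⟨i', j, hj, t⟩ | _ <;> exact h.elim
    · rcases v with _ | _ | ⟨i', j', hj, t⟩ | _ <;> try exact h.elim
      obtain ⟨rfl, h2⟩ := h
      exact ⟨i', hj, t, rfl, h2⟩
  · rintro ⟨i, h, t, rfl, h2⟩
    exact Or.inr ⟨rfl, h2⟩

/-- the neighbours of an inner vertex of a path -/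
theorem yv_p {s : Bool} {i : Ro} {j : Co} {h : S i j} {t : Fin r} {v : Vt S r M} :
    YV s (.p i j h t) v ↔ (v = .a i ∧ (t : ℕ) = 0) ∨ (v = .b j ∧ (t : ℕ) + 1 = r) ∨
      (∃ t', v = .p i j h t' ∧ ((t' : ℕ) = t + 1 ∨ (t : ℕ) = t' + 1)) ∨
      (s = true ∧ ∃ j' h' t', v = .p i j' h' t' ∧ j ≠ j' ∧ (t : ℕ) = 0 ∧ (t' : ℕ) = 0) ∨
      (s = true ∧ ∃ i' h' t', v = .p i' j h' t' ∧ i ≠ i' ∧ (t : ℕ) + 1 = r ∧
        (t' : ℕ) + 1 = r) := by
  constructor
  · rintro (h1 | h1)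
    · rcases v with _ | j' | ⟨i', j', hj, t'⟩ | _
      · exact h1.elim
      · obtain ⟨rfl, h2⟩ := h1
        exact Or.inr (Or.inl ⟨rfl, h2⟩)
      · rcases h1 with ⟨rfl, rfl, h2⟩ | ⟨hs, ⟨rfl, h2, h3, h4⟩ | ⟨rfl, h2, h3, h4⟩⟩
        · exact Or.inr (Or.inr (Or.inl ⟨t', rfl, Or.inl h2⟩))
        · exact Or.inr (Or.inr (Or.inr (Or.inl ⟨hs, j', hj, t', rfl, h2, h3, h4⟩)))
        · exact Or.inr (Or.inr (Or.inr (Or.inr ⟨hs, i', hj, t', rfl, h2, h3, h4⟩)))
      · exact h1.elim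
    · rcases v with i' | j' | ⟨i', j', hj, t'⟩ | _
      · obtain ⟨rfl, h2⟩ := h1
        exact Or.inl ⟨rfl, h2⟩
      · exact h1.elim
      · rcases h1 with ⟨rfl, rfl, h2⟩ | ⟨hs, ⟨rfl, h2, h3, h4⟩ | ⟨rfl, h2, h3, h4⟩⟩
        · exact Or.inr (Or.inr (Or.inl ⟨t', rfl, Or.inr h2⟩))
        · exact Or.inr (Or.inr (Or.inr (Or.inl ⟨hs, j', hj, t', rfl, h2.symm, h4, h3⟩)))
        · exact Or.inr (Or.inr (Or.inr (Or.inr ⟨hs, i', hj, t', rfl, h2.symm, h4, h3⟩)))
      · exact h1.elim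
  · rintro (⟨rfl, h2⟩ | ⟨rfl, h2⟩ | ⟨t', rfl, h2 | h2⟩ | ⟨hs, j', h', t', rfl, h2, h3, h4⟩ |
      ⟨hs, i', h', t', rfl, h2, h3, h4⟩)
    · exact Or.inr ⟨rfl, h2⟩
    · exact Or.inl ⟨rfl, h2⟩
    · exact Or.inl (Or.inl ⟨rfl, rfl, h2⟩)
    · exact Or.inr (Or.inl ⟨rfl, rfl, h2⟩)
    · exact Or.inl (Or.inr ⟨hs, Or.inl ⟨rfl, h2, h3, h4⟩⟩)
    · exact Or.inl (Or.inr ⟨hs, Or.inr ⟨rfl, h2, h3, h4⟩⟩)

/-- every row has three columns and every column has at most two rows -/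
structure Inc (S : Ro → Co → Prop) : Prop where
  three : ∀ i, ∃ j1 j2 j3, j1 ≠ j2 ∧ j1 ≠ j3 ∧ j2 ≠ j3 ∧ S i j1 ∧ S i j2 ∧ S i j3
  two : ∀ j i1 i2 i3, S i1 j → S i2 j → S i3 j → i1 = i2 ∨ i1 = i3 ∨ i2 = i3

theorem rt_iff (hS : Inc S) (hr : 1 ≤ r) (s : Bool) (u : Vt S r M) :
    Rt s (YV s) u ↔ ∃ i, u = .a i := by
  constructor
  · rintro ⟨⟨x, y, w, h1, h2, h3, h4, h5, h6⟩, h7⟩
    rcases u with i | j | ⟨i, j, hj, t⟩ | ⟨l, m⟩
    · exact ⟨i, rfl⟩
    · exfalso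
      obtain ⟨i1, k1, t1, rfl, e1⟩ := yv_b.1 h4
      obtain ⟨i2, k2, t2, rfl, e2⟩ := yv_b.1 h5
      obtain ⟨i3, k3, t3, rfl, e3⟩ := yv_b.1 h6
      have f1 : t1 = t2 := Fin.ext (by omega)
      have f2 : t1 = t3 := Fin.ext (by omega)
      subst f1
      subst f2
      rcases hS.two j i1 i2 i3 k1 k2 k3 with rfl | rfl | rfl
      · exact h1 rfl
      · exact h2 rfl
      · exact h3 rfl
    · exfalso
      cases s with
      | true =>
        have h8 := h7 rfl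
        -- the previous and the next vertex
        obtain ⟨q, hq, hq'⟩ : ∃ q : Vt S r M, YV true (.p i j hj t) q ∧
            ((q = .a i ∧ (t : ℕ) = 0) ∨ ∃ t', q = .p i j hj t' ∧ (t : ℕ) = t' + 1) := by
          by_cases h0 : (t : ℕ) = 0
          · exact ⟨.a i, yv_p.2 (Or.inl ⟨rfl, h0⟩), Or.inl ⟨rfl, h0⟩⟩
          · have := t.2
            refine ⟨.p i j hj ⟨t - 1, by omega⟩, yv_p.2 (Or.inr (Or.inr (Or.inl ⟨_, rfl,
              Or.inr ?_⟩))), Or.inr ⟨_, rfl, ?_⟩⟩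
            · show (t : ℕ) = t - 1 + 1
              omega
            · show (t : ℕ) = t - 1 + 1
              omega
        obtain ⟨q1, hq1, hq1'⟩ : ∃ q : Vt S r M, YV true (.p i j hj t) q ∧
            ((q = .b j ∧ (t : ℕ) + 1 = r) ∨ ∃ t', q = .p i j hj t' ∧ (t' : ℕ) = t + 1) := by
          by_cases h0 : (t : ℕ) + 1 = r
          · exact ⟨.b j, yv_p.2 (Or.inr (Or.inl ⟨rfl, h0⟩)), Or.inl ⟨rfl, h0⟩⟩
          · have := t.2
            exact ⟨.p i j hj ⟨t + 1, by omega⟩, yv_p.2 (Or.inr (Or.inr (Or.inl ⟨_, rfl,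
              Or.inl rfl⟩))), Or.inr ⟨_, rfl, rfl⟩⟩
        have hne : q ≠ q1 := by
          rcases hq' with ⟨rfl, -⟩ | ⟨t', rfl, e1⟩ <;> rcases hq1' with ⟨rfl, -⟩ | ⟨t'', rfl, e2⟩
          · exact fun h => by cases h
          · exact fun h => by cases h
          · exact fun h => by cases h
          · intro h
            simp only [Vt.p.injEq, true_and] at h
            rw [h] at e1
            omega
        have h9 := h8 q q1 hq hq1 hne
        rcases hq' with ⟨rfl, e1⟩ | ⟨t', rfl, e1⟩ <;> rcases hq1' with ⟨rfl, e2⟩ | ⟨t'', rfl, e2⟩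
        · obtain ⟨_, _, _, h10, _⟩ := yv_a.1 h9
          cases h10
        · obtain ⟨j', hj', t3, h10, h11⟩ := yv_a.1 h9
          simp only [Vt.p.injEq, true_and] at h10
          rw [← h10.2] at h11
          omega
        · rcases yv_p.1 h9 with ⟨h10, -⟩ | ⟨-, h10⟩ | ⟨_, h10, -⟩ | ⟨-, _, _, _, h10, -⟩ |
            ⟨-, _, _, _, h10, -⟩
          · cases h10
          · omega
          · cases h10
          · cases h10
          · cases h10
        · rcases yv_p.1 h9 with ⟨h10, -⟩ | ⟨h10, -⟩ | ⟨t3, h10, h11⟩ | ⟨-, j', _, t3, h10, h11, -⟩ |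
            ⟨-, i', _, t3, h10, h11, -⟩
          · cases h10
          · cases h10
          · simp only [Vt.p.injEq, true_and] at h10
            subst h10
            omega
          · simp only [Vt.p.injEq, true_and] at h10
            exact h11 h10.1
          · simp only [Vt.p.injEq] at h10
            exact h11 h10.1
      | false =>
        -- at most two neighbours
        have key : ∀ v : Vt S r M, YV false (.p i j hj t) v → (v = .a i ∧ (t : ℕ) = 0) ∨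
            (v = .b j ∧ (t : ℕ) + 1 = r) ∨
            ∃ t', v = .p i j hj t' ∧ ((t' : ℕ) = t + 1 ∨ (t : ℕ) = t' + 1) := by
          intro v hv
          rcases yv_p.1 hv with h | h | h | ⟨h, -⟩ | ⟨h, -⟩
          · exact Or.inl h
          · exact Or.inr (Or.inl h)
          · exact Or.inr (Or.inr h)
          · exact absurd h (by decide)
          · exact absurd h (by decide)
        have key2 : ∀ v v' : Vt S r M, YV false (.p i j hj t) v → YV false (.p i j hj t) v' →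
            ((∃ t' : Fin r, v = .p i j hj t' ∧ (t' : ℕ) = t + 1) ∨ (v = .b j ∧ (t : ℕ) + 1 = r)) →
            ((∃ t' : Fin r, v' = .p i j hj t' ∧ (t' : ℕ) = t + 1) ∨
              (v' = .b j ∧ (t : ℕ) + 1 = r)) → v = v' := by
          rintro v v' - - (⟨t1, rfl, e1⟩ | ⟨rfl, e1⟩) (⟨t2, rfl, e2⟩ | ⟨rfl, e2⟩)
          · have : t1 = t2 := Fin.ext (by omega)
            rw [this]
          · have := t1.2
            omega
          · have := t2.2
            omega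
          · rfl
        have key3 : ∀ v v' : Vt S r M,
            ((∃ t' : Fin r, v = .p i j hj t' ∧ (t : ℕ) = t' + 1) ∨ (v = .a i ∧ (t : ℕ) = 0)) →
            ((∃ t' : Fin r, v' = .p i j hj t' ∧ (t : ℕ) = t' + 1) ∨
              (v' = .a i ∧ (t : ℕ) = 0)) → v = v' := by
          rintro v v' (⟨t1, rfl, e1⟩ | ⟨rfl, e1⟩) (⟨t2, rfl, e2⟩ | ⟨rfl, e2⟩)
          · have : t1 = t2 := Fin.ext (by omega)
            rw [this]
          · omega
          · omega
          · rfl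
        have key4 : ∀ v : Vt S r M, YV false (.p i j hj t) v →
            ((∃ t' : Fin r, v = .p i j hj t' ∧ (t' : ℕ) = t + 1) ∨ (v = .b j ∧ (t : ℕ) + 1 = r)) ∨
            ((∃ t' : Fin r, v = .p i j hj t' ∧ (t : ℕ) = t' + 1) ∨ (v = .a i ∧ (t : ℕ) = 0)) := by
          intro v hv
          rcases key v hv with h | h | ⟨t', h, h' | h'⟩
          · exact Or.inr (Or.inr h)
          · exact Or.inl (Or.inr h)
          · exact Or.inl (Or.inl ⟨t', h, h'⟩)
          · exact Or.inr (Or.inl ⟨t', h, h'⟩)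
        rcases key4 x h4 with e1 | e1 <;> rcases key4 y h5 with e2 | e2 <;>
          rcases key4 w h6 with e3 | e3
        · exact h1 (key2 _ _ h4 h5 e1 e2)
        · exact h1 (key2 _ _ h4 h5 e1 e2)
        · exact h2 (key2 _ _ h4 h6 e1 e3)
        · exact h3 (key3 _ _ e2 e3)
        · exact h3 (key2 _ _ h5 h6 e2 e3)
        · exact h2 (key3 _ _ e1 e3)
        · exact h1 (key3 _ _ e1 e2)
        · exact h1 (key3 _ _ e1 e2)
    · exact absurd h4 (yv_z _ _ _ _)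
  · rintro ⟨i, rfl⟩
    obtain ⟨j1, j2, j3, h1, h2, h3, k1, k2, k3⟩ := hS.three i
    refine ⟨⟨.p i j1 k1 ⟨0, hr⟩, .p i j2 k2 ⟨0, hr⟩, .p i j3 k3 ⟨0, hr⟩, ?_, ?_, ?_,
      yv_a.2 ⟨_, _, _, rfl, rfl⟩, yv_a.2 ⟨_, _, _, rfl, rfl⟩, yv_a.2 ⟨_, _, _, rfl, rfl⟩⟩, ?_⟩
    · intro h
      simp only [Vt.p.injEq, true_and] at h
      exact h1 h.1
    · intro h
      simp only [Vt.p.injEq, true_and] at h
      exact h2 h.1
    · intro h
      simp only [Vt.p.injEq, true_and] at h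
      exact h3 h.1
    · rintro rfl u v hu hv huv
      obtain ⟨j, hj, t, rfl, e1⟩ := yv_a.1 hu
      obtain ⟨j', hj', t', rfl, e2⟩ := yv_a.1 hv
      have ht : t = t' := Fin.ext (by omega)
      subst ht
      refine yv_p.2 (Or.inr (Or.inr (Or.inr (Or.inl ⟨rfl, j', hj', t, rfl, ?_, e1, e2⟩))))
      rintro rfl
      exact huv rfl

/-- the column -/
def Vt.col : Vt S r M → Option Co
  | .a _ => none
  | .b j => some j
  | .p _ j _ _ => some j
  | .z _ _ => none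

theorem inn_p (hS : Inc S) (hr : 1 ≤ r) {s : Bool} {i : Ro} {j : Co} {h : S i j} {t : Fin r} :
    Inn s (YV s) (.p i j h t : Vt S r M) ↔ (t : ℕ) ≠ 0 := by
  constructor
  · intro h1 h2
    exact h1.2 (.a i) ((rt_iff hS hr s _).2 ⟨i, rfl⟩) (yv_a.2 ⟨j, h, t, rfl, h2⟩)
  · refine fun h1 => ⟨fun h2 => ?_, fun v hv hv' => ?_⟩
    · obtain ⟨i', h3⟩ := (rt_iff hS hr s _).1 h2
      cases h3
    · obtain ⟨i', rfl⟩ := (rt_iff hS hr s _).1 hv
      obtain ⟨j', h', t', h3, h4⟩ := yv_a.1 hv'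
      simp only [Vt.p.injEq] at h3
      rw [← h3.2.2] at h4
      exact h1 h4

theorem inn_b (hS : Inc S) (hr : 1 ≤ r) {s : Bool} {j : Co} :
    Inn s (YV s) (.b j : Vt S r M) := by
  refine ⟨fun h2 => ?_, fun v hv hv' => ?_⟩
  · obtain ⟨i', h3⟩ := (rt_iff hS hr s _).1 h2
    cases h3
  · obtain ⟨i', rfl⟩ := (rt_iff hS hr s _).1 hv
    obtain ⟨j', h', t', h3, h4⟩ := yv_a.1 hv'
    cases h3

/-- inner adjacent vertices are in the same column -/
theorem inn_col (hS : Inc S) (hr : 1 ≤ r) {s : Bool} {u v : Vt S r M} (hu : Inn s (YV s) v)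
    (h : YV s u v) : u.col = v.col := by
  rcases u with i | j | ⟨i, j, hj, t⟩ | ⟨l, m⟩
  · exact absurd h (hu.2 _ ((rt_iff hS hr s _).2 ⟨i, rfl⟩))
  · obtain ⟨i, h1, t, rfl, h2⟩ := yv_b.1 h
    rfl
  · rcases yv_p.1 h with ⟨rfl, -⟩ | ⟨rfl, -⟩ | ⟨t', rfl, -⟩ | ⟨-, j', h', t', rfl, -, -, h2⟩ |
      ⟨-, i', h', t', rfl, -⟩
    · exact absurd ((rt_iff hS hr s _).2 ⟨i, rfl⟩) hu.1
    · rfl
    · rfl
    · exact absurd h2 ((inn_p hS hr).1 hu)
    · rfl
  · exact absurd h (yv_z _ _ _ _)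

theorem lk_iff (hS : Inc S) (hr : 1 ≤ r) (s : Bool) (i i' : Ro) :
    Lk s (YV s) (.a i : Vt S r M) (.a i') ↔ i ≠ i' ∧ ∃ j, S i j ∧ S i' j := by
  constructor
  · rintro ⟨hne, x, y, hx, hy, h1, h2, h3⟩
    have hne' : i ≠ i' := fun e => hne (by rw [e])
    refine ⟨hne', ?_⟩
    obtain ⟨j, hj, t, rfl, e1⟩ := yv_a.1 h1
    obtain ⟨j', hj', t', rfl, e2⟩ := yv_a.1 h2
    have hjj : j = j' := by
      rcases h3 with h3 | ⟨z, z', h3, h4, h5, h6, h7⟩
      · rcases yv_p.1 h3 with ⟨h4, -⟩ | ⟨h4, -⟩ | ⟨t'', h4, h5⟩ | ⟨-, _, _, _, h4, -⟩ |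
          ⟨-, _, _, _, h4, -⟩
        · cases h4
        · cases h4
        · simp only [Vt.p.injEq] at h4
          exact h4.2.1.symm
        · simp only [Vt.p.injEq] at h4
          exact absurd h4.1.symm hne'
        · simp only [Vt.p.injEq] at h4
          exact h4.2.1.symm
      · have c1 := inn_col hS hr h3 h5
        have c2 := inn_col hS hr h4 h6
        have c3 : z.col = z'.col := by
          clear h4 h6 c2
          induction h7 with
          | refl => rfl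
          | tail _ h8 ih => exact ih.trans (inn_col hS hr h8.2.1 h8.2.2)
        have c4 : some j = some j' := c1.trans (c3.trans c2.symm)
        exact Option.some.inj c4
    subst hjj
    exact ⟨j, hj, hj'⟩
  · rintro ⟨hne, j, hj, hj'⟩
    refine ⟨fun h => ?_, .p i j hj ⟨0, hr⟩, .p i' j hj' ⟨0, hr⟩, fun h => ?_, fun h => ?_,
      yv_a.2 ⟨_, _, _, rfl, rfl⟩, yv_a.2 ⟨_, _, _, rfl, rfl⟩, Or.inr ?_⟩
    · cases h
      exact hne rfl
    · obtain ⟨_, h1⟩ := (rt_iff hS hr s _).1 h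
      cases h1
    · obtain ⟨_, h1⟩ := (rt_iff hS hr s _).1 h
      cases h1
    -- the path from the second vertex to the root of the column
    have key : ∀ (i : Ro) (hj : S i j), ∃ z : Vt S r M, Inn s (YV s) z ∧
        YV s (.p i j hj ⟨0, hr⟩) z ∧
        Relation.ReflTransGen (fun p q : Vt S r M => Inn s (YV s) p ∧ Inn s (YV s) q ∧ YV s p q)
          z (.b j) := by
      intro i hj
      have walk : ∀ (k : ℕ) (t : Fin r), (t : ℕ) + 1 + k = r → (t : ℕ) ≠ 0 →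
          Relation.ReflTransGen (fun p q : Vt S r M => Inn s (YV s) p ∧ Inn s (YV s) q ∧ YV s p q)
            (.p i j hj t) (.b j) := by
        intro k
        induction k with
        | zero =>
          intro t ht h0
          exact Relation.ReflTransGen.single ⟨(inn_p hS hr).2 h0, inn_b hS hr,
            yv_p.2 (Or.inr (Or.inl ⟨rfl, by omega⟩))⟩
        | succ k ih =>
          intro t ht h0
          have h1 : (t : ℕ) + 1 < r := by omega
          refine Relation.ReflTransGen.head ⟨(inn_p hS hr).2 h0, (inn_p hS hr).2 ?_,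
            yv_p.2 (Or.inr (Or.inr (Or.inl ⟨⟨t + 1, h1⟩, rfl, Or.inl rfl⟩)))⟩ (ih ⟨t + 1, h1⟩ ?_ ?_)
          · show (t : ℕ) + 1 ≠ 0
            omega
          · show (t : ℕ) + 1 + 1 + k = r
            omega
          · show (t : ℕ) + 1 ≠ 0
            omega
      by_cases h1 : r = 1
      · exact ⟨.b j, inn_b hS hr, yv_p.2 (Or.inr (Or.inl ⟨rfl, by simp [h1]⟩)),
          Relation.ReflTransGen.refl⟩
      · refine ⟨.p i j hj ⟨1, by omega⟩, (inn_p hS hr).2 (by simp),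
          yv_p.2 (Or.inr (Or.inr (Or.inl ⟨_, rfl, Or.inl rfl⟩))), walk (r - 2) _ ?_ (by simp)⟩
        show 1 + 1 + (r - 2) = r
        omega
    obtain ⟨z, h1, h2, h3⟩ := key i hj
    obtain ⟨z', h1', h2', h3'⟩ := key i' hj'
    refine ⟨z, z', h1, h1', h2, h2', h3.trans ?_⟩
    have : Std.Symm (fun p q : Vt S r M => Inn s (YV s) p ∧ Inn s (YV s) q ∧ YV s p q) :=
      ⟨fun p q h => ⟨h.2.1, h.1, yv_symm h.2.2⟩⟩
    exact Std.Symm.symm _ _ h3'

end Pool.Agent.Y545.GI
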