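import Mathlib

set_option autoImplicit false

/-!
The crossings and the comparability grids of Dreier, Mählmann and Toruńczyk (Flip-breakability: a
combinatorial dichotomy for monadically dependent graph classes, STOC 2024), and their finite induced
subgraphs.
-/

namespace Pool.Agent.Y545.Mon

/-- The vertices of the `r`-crossings over `ι` (of order `n` for `ι = Fin n`): the roots `a i` and
`b j`, and the `r` vertices `p i j 0, ..., p i j (r-1)` of the path number `(i, j)`. -/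
inductive Vx (ι : Type) (r : ℕ) : Type
  | a (i : ι)
  | p (i j : ι) (t : Fin r)
  | b (j : ι)

/-- The layers: the roots `a i`, the `t`-th vertices of all paths, the roots `b j`. -/
def Vx.layer {ι : Type} {r : ℕ} : Vx ι r → Fin (r + 2)
  | .a _ => 0
  | .p _ _ t => t.succ.castSucc
  | .b _ => Fin.last (r + 1)

/-- The three kinds of crossings. -/
inductive Kind
  | star | clique | half

/-- The edges of the crossings, in one direction. In all crossings consecutive vertices of a path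
are adjacent. Star and clique crossing: the root `a i` is adjacent to the first vertices of the
paths `(i, j)` and the root `b j` to the last vertices of the paths `(i, j)`; in the clique crossing
the neighbourhoods of the roots are cliques. Half graph crossing: the root `a i` is adjacent to the
first vertices of the paths `(i', j)` with `i ≤ i'` and the root `b j` to the last vertices of the
paths `(i, j')` with `j ≤ j'`. -/
def arc {ι : Type} [LinearOrder ι] {r : ℕ} : Kind → Vx ι r → Vx ι r → Prop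
  | .half, .a i, .p i' _ t => i ≤ i' ∧ (t : ℕ) = 0
  | _, .a i, .p i' _ t => i = i' ∧ (t : ℕ) = 0
  | .half, .p _ j' t, .b j => j ≤ j' ∧ (t : ℕ) + 1 = r
  | _, .p _ j' t, .b j => j = j' ∧ (t : ℕ) + 1 = r
  | .clique, .p i j t, .p i' j' t' => (i = i' ∧ j = j' ∧ (t' : ℕ) = t + 1) ∨
      (i = i' ∧ (t : ℕ) = 0 ∧ (t' : ℕ) = 0) ∨ (j = j' ∧ (t : ℕ) + 1 = r ∧ (t' : ℕ) + 1 = r)
  | _, .p i j t, .p i' j' t' => i = i' ∧ j = j' ∧ (t' : ℕ) = t + 1
  | _, _, _ => False

/-- The `r`-crossing over `ι` of the given kind. -/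
def crossing (k : Kind) (ι : Type) [LinearOrder ι] (r : ℕ) : SimpleGraph (Vx ι r) :=
  SimpleGraph.fromRel (arc k)

/-- The graph `G'` is obtained from `G` by a flip of the layers: for any two layers (possibly the
same) either all or none of the pairs between them are complemented. -/
def IsFlip {ι : Type} {r : ℕ} (G G' : SimpleGraph (Vx ι r)) : Prop :=
  ∃ F : Fin (r + 2) → Fin (r + 2) → Prop, ∀ u v, u ≠ v →
    (G'.Adj u v ↔ ¬ (G.Adj u v ↔ F u.layer v.layer))

/-- The comparability grid over `ι` (of order `n` for `ι = Fin n`). -/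
def grid (ι : Type) [LinearOrder ι] : SimpleGraph (ι × ι) :=
  SimpleGraph.fromRel fun u v => u.1 = v.1 ∨ u.2 = v.2 ∨ (u.1 < v.1 ∧ u.2 < v.2)

/-- The graph `H` is an induced subgraph of a member of the class `𝒞` of finite graphs. -/
def In (𝒞 : (n : ℕ) → SimpleGraph (Fin n) → Prop) {V : Type} (H : SimpleGraph V) : Prop :=
  ∃ (n : ℕ) (G : SimpleGraph (Fin n)), 𝒞 n G ∧ Nonempty (H ↪g G)

/-- For some `r ≥ 1` and for every `n` the class `𝒞` contains, as an induced subgraph, a flipped star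
`r`-crossing, a flipped clique `r`-crossing or a flipped half graph `r`-crossing of order `n`, or the
comparability grid of order `n`. -/
def Patterns (𝒞 : (n : ℕ) → SimpleGraph (Fin n) → Prop) : Prop :=
  ∃ r : ℕ, 1 ≤ r ∧ ∀ n : ℕ, (∃ (k : Kind) (G : SimpleGraph (Vx (Fin n) r)),
    IsFlip (crossing k (Fin n) r) G ∧ In 𝒞 G) ∨ In 𝒞 (grid (Fin n))

/-- All finite induced subgraphs of the graph `G` on `ℕ` are induced subgraphs of members of `𝒞`. -/
def Locally (𝒞 : (n : ℕ) → SimpleGraph (Fin n) → Prop) (G : SimpleGraph ℕ) : Prop :=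
  ∀ s : Finset ℕ, In 𝒞 (G.induce (s : Set ℕ))

/-! ### Finite induced subgraphs -/

section fin

variable {ι κ : Type} [LinearOrder ι] [LinearOrder κ] {r : ℕ}

/-- the position in a finite set -/
noncomputable def pos (A : Finset ι) {n : ℕ} (h : A.card < n) (x : ι) : Fin n := by
  classical
  exact ⟨(A.filter (· < x)).card, lt_of_le_of_lt (Finset.card_filter_le _ _) h⟩

theorem pos_le (A : Finset ι) {n : ℕ} (h : A.card < n) {x y : ι} (hy : y ∈ A) :
    x ≤ y ↔ pos A h x ≤ pos A h y := by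
  classical
  constructor
  · intro hxy
    refine Fin.mk_le_mk.2 (Finset.card_le_card fun z hz => ?_)
    rw [Finset.mem_filter] at hz ⊢
    exact ⟨hz.1, lt_of_lt_of_le hz.2 hxy⟩
  · intro h1
    by_contra h2
    rw [not_le] at h2
    have h3 : (A.filter (· < y)).card < (A.filter (· < x)).card := by
      refine Finset.card_lt_card ⟨fun z hz => ?_, fun h4 => ?_⟩
      · rw [Finset.mem_filter] at hz ⊢
        exact ⟨hz.1, hz.2.trans h2⟩
      · have : y ∈ A.filter (· < x) := Finset.mem_filter.2 ⟨hy, h2⟩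
        exact lt_irrefl _ (Finset.mem_filter.1 (h4 this)).2
    exact absurd (Fin.mk_le_mk.1 h1) (not_le.2 h3)

/-- the coordinates -/
def Vx.crd : Vx ι r → Finset ι
  | .a i => {i}
  | .p i j _ => {i, j}
  | .b j => {j}

/-- change of the index set -/
def Vx.map (ρ : ι → κ) : Vx ι r → Vx κ r
  | .a i => .a (ρ i)
  | .p i j t => .p (ρ i) (ρ j) t
  | .b j => .b (ρ j)

omit [LinearOrder ι] [LinearOrder κ] in
theorem map_layer (ρ : ι → κ) (u : Vx ι r) : (u.map ρ).layer = u.layer := by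
  cases u <;> rfl

theorem map_inj {ρ : ι → κ} {A : Finset ι} (h : ∀ x ∈ A, ∀ y ∈ A, x ≤ y ↔ ρ x ≤ ρ y)
    {u v : Vx ι r} (hu : u.crd ⊆ A) (hv : v.crd ⊆ A) (e : u.map ρ = v.map ρ) : u = v := by
  have hinj : ∀ {x y : ι}, x ∈ A → y ∈ A → ρ x = ρ y → x = y := fun hx hy h1 =>
    le_antisymm ((h _ hx _ hy).2 h1.le) ((h _ hy _ hx).2 h1.ge)
  cases u <;> cases v <;> simp only [Vx.map, reduceCtorEq, Vx.a.injEq, Vx.b.injEq, Vx.p.injEq] at e
    <;> simp only [Vx.crd, Finset.insert_subset_iff, Finset.singleton_subset_iff] at hu hv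
  · rw [hinj hu hv e]
  · rw [hinj hu.1 hv.1 e.1, hinj hu.2 hv.2 e.2.1, e.2.2]
  · rw [hinj hu hv e]

theorem map_arc {ρ : ι → κ} {A : Finset ι} (h : ∀ x ∈ A, ∀ y ∈ A, x ≤ y ↔ ρ x ≤ ρ y) (k : Kind)
    {u v : Vx ι r} (hu : u.crd ⊆ A) (hv : v.crd ⊆ A) :
    arc k (u.map ρ) (v.map ρ) ↔ arc k u v := by
  have hle : ∀ {x y : ι}, x ∈ A → y ∈ A → (ρ x ≤ ρ y ↔ x ≤ y) := fun hx hy => (h _ hx _ hy).symm
  have heq : ∀ {x y : ι}, x ∈ A → y ∈ A → (ρ x = ρ y ↔ x = y) := fun hx hy =>
    ⟨fun h1 => le_antisymm ((hle hx hy).1 h1.le) ((hle hy hx).1 h1.ge), fun h1 => by rw [h1]⟩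
  cases u <;> cases v <;>
    simp only [Vx.crd, Finset.insert_subset_iff, Finset.singleton_subset_iff] at hu hv <;>
    cases k <;> simp only [Vx.map, arc, hle, heq, hu, hv]

end fin

/-- A class is hereditary enough: `In 𝒞` is closed under induced subgraphs. -/
theorem In.mono {𝒞 : (n : ℕ) → SimpleGraph (Fin n) → Prop} {V W : Type} {H : SimpleGraph V}
    {H' : SimpleGraph W} (h : In 𝒞 H) (f : H' ↪g H) : In 𝒞 H' := by
  obtain ⟨n, G, h1, ⟨g⟩⟩ := h
  exact ⟨n, G, h1, ⟨g.comp f⟩⟩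

/-- the flipped crossing -/
def Flipped (k : Kind) {ι : Type} [LinearOrder ι] {r : ℕ} (F : Fin (r + 2) → Fin (r + 2) → Prop)
    (u v : Vx ι r) : Prop :=
  ¬ ((arc k u v ∨ arc k v u) ↔ F u.layer v.layer)

/-- one kind and one flip occur for arbitrarily large orders -/
theorem Patterns.cases {𝒞 : (n : ℕ) → SimpleGraph (Fin n) → Prop} (h : Patterns 𝒞) :
    (∃ r : ℕ, 1 ≤ r ∧ ∃ (k : Kind) (F : Fin (r + 2) → Fin (r + 2) → Prop), (∀ a b, F a b → F b a) ∧
      ∀ m : ℕ, ∃ n, m ≤ n ∧ ∃ G : SimpleGraph (Vx (Fin n) r),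
        (∀ u v, u ≠ v → (G.Adj u v ↔ Flipped k F u v)) ∧ In 𝒞 G) ∨
    ∀ m : ℕ, ∃ n, m ≤ n ∧ In 𝒞 (grid (Fin n)) := by
  classical
  obtain ⟨r, hr, h⟩ := h
  by_cases hg : ∀ m : ℕ, ∃ n, m ≤ n ∧ In 𝒞 (grid (Fin n))
  · exact Or.inr hg
  left
  push Not at hg
  obtain ⟨m0, hm0⟩ := hg
  refine ⟨r, hr, ?_⟩
  have hfin : Finite Kind := by
    have : Function.Injective (fun k : Kind => (match k with
      | .star => 0
      | .clique => 1
      | .half => 2 : Fin 3)) := by
      intro a b hab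
      cases a <;> cases b <;> first | rfl | (simp at hab)
    exact Finite.of_injective _ this
  have key : ∀ n : ℕ, ∃ o : Kind × (Fin (r + 2) → Fin (r + 2) → Prop),
      (∀ a b, o.2 a b → o.2 b a) ∧ ∃ G : SimpleGraph (Vx (Fin (n + m0)) r),
        (∀ u v, u ≠ v → (G.Adj u v ↔ Flipped o.1 o.2 u v)) ∧ In 𝒞 G := by
    intro n
    rcases h (n + m0) with ⟨k, G, ⟨F, hF⟩, hG⟩ | h1
    swap
    · exact absurd h1 (hm0 _ (Nat.le_add_left _ _))
    refine ⟨(k, fun a b => F (min a b) (max a b)), fun a b hab => ?_, G, fun u v huv => ?_, hG⟩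
    · show F (min b a) (max b a)
      rw [min_comm, max_comm]
      exact hab
    · have h1 := hF u v huv
      have h2 := hF v u huv.symm
      have h3 : ∀ u v : Vx (Fin (n + m0)) r, u ≠ v → ((crossing k (Fin (n + m0)) r).Adj u v ↔
          (arc k u v ∨ arc k v u)) := by
        intro u v huv
        unfold crossing
        rw [SimpleGraph.fromRel_adj]
        exact and_iff_right huv
      rw [h3 u v huv] at h1
      rw [h3 v u huv.symm, G.adj_comm, or_comm] at h2
      unfold Flipped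
      show _ ↔ ¬ (_ ↔ F (min u.layer v.layer) (max u.layer v.layer))
      rcases le_total u.layer v.layer with h4 | h4
      · rw [min_eq_left h4, max_eq_right h4]
        exact h1
      · rw [min_eq_right h4, max_eq_left h4]
        exact h2
  choose o ho1 ho2 using key
  obtain ⟨c, hc⟩ := Finite.exists_infinite_fiber o
  refine ⟨c.1, c.2, ?_, fun m => ?_⟩
  · obtain ⟨n, hn⟩ := hc.nonempty
    have : o n = c := hn
    rw [← this]
    exact ho1 n
  · have hinf : (o ⁻¹' {c}).Infinite := Set.infinite_coe_iff.1 hc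
    obtain ⟨n, hn, hmn⟩ := hinf.exists_gt m
    have hoc : o n = c := hn
    obtain ⟨G, h1, h2⟩ := ho2 n
    rw [hoc] at h1
    exact ⟨n + m0, hmn.le.trans (Nat.le_add_right _ _), G, h1, h2⟩

/-- graphs that embed into the flipped crossings over a linear order are locally in the class -/
theorem local_crossing {𝒞 : (n : ℕ) → SimpleGraph (Fin n) → Prop} {ι : Type} [LinearOrder ι]
    {r : ℕ} {k : Kind} {F : Fin (r + 2) → Fin (r + 2) → Prop}
    (h : ∀ m : ℕ, ∃ n, m ≤ n ∧ ∃ G : SimpleGraph (Vx (Fin n) r),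
        (∀ u v, u ≠ v → (G.Adj u v ↔ Flipped k F u v)) ∧ In 𝒞 G)
    {R : SimpleGraph ℕ} (g : ℕ → Vx ι r) (hg : Function.Injective g)
    (hR : ∀ u v, u ≠ v → (R.Adj u v ↔ Flipped k F (g u) (g v))) : Locally 𝒞 R := by
  classical
  intro s
  let A : Finset ι := s.biUnion fun u => (g u).crd
  have hA : ∀ u ∈ s, (g u).crd ⊆ A := fun u hu => Finset.subset_biUnion_of_mem (fun u => (g u).crd) hu
  obtain ⟨n, hn, G, h1, h2⟩ := h (A.card + 1)
  have hρ : ∀ x ∈ A, ∀ y ∈ A, x ≤ y ↔ pos A hn x ≤ pos A hn y := fun x _ y hy => pos_le A hn hy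
  refine h2.mono ⟨⟨fun u => (g u.1).map (pos A hn), fun u v huv => ?_⟩, fun {u v} => ?_⟩
  · exact Subtype.ext (hg (map_inj hρ (hA _ u.2) (hA _ v.2) huv))
  · show G.Adj ((g u.1).map (pos A hn)) ((g v.1).map (pos A hn)) ↔ R.Adj u.1 v.1
    by_cases huv : u = v
    · rw [huv]
      exact iff_of_false (G.irrefl) (R.irrefl)
    · have hne : u.1 ≠ v.1 := fun e => huv (Subtype.ext e)
      rw [h1 _ _ fun e => hne (hg (map_inj hρ (hA _ u.2) (hA _ v.2) e)), hR _ _ hne]
      unfold Flipped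
      rw [map_arc hρ k (hA _ u.2) (hA _ v.2), map_arc hρ k (hA _ v.2) (hA _ u.2), map_layer,
        map_layer]

/-- graphs that embed into the comparability grid over a linear order are locally in the class -/
theorem local_grid {𝒞 : (n : ℕ) → SimpleGraph (Fin n) → Prop} {ι : Type} [LinearOrder ι]
    (h : ∀ m : ℕ, ∃ n, m ≤ n ∧ In 𝒞 (grid (Fin n)))
    {R : SimpleGraph ℕ} (g : ℕ → ι × ι) (hg : Function.Injective g)
    (hR : ∀ u v, R.Adj u v ↔ (grid ι).Adj (g u) (g v)) : Locally 𝒞 R := by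
  classical
  intro s
  let A : Finset ι := s.biUnion fun u => {(g u).1, (g u).2}
  have hA1 : ∀ u ∈ s, (g u).1 ∈ A := fun u hu => Finset.mem_biUnion.2 ⟨u, hu, by simp⟩
  have hA2 : ∀ u ∈ s, (g u).2 ∈ A := fun u hu => Finset.mem_biUnion.2 ⟨u, hu, by simp⟩
  obtain ⟨n, hn, h2⟩ := h (A.card + 1)
  have hle : ∀ {x y : ι}, x ∈ A → y ∈ A → (pos A hn x ≤ pos A hn y ↔ x ≤ y) :=
    fun _ hy => (pos_le A hn hy).symm
  have heq : ∀ {x y : ι}, x ∈ A → y ∈ A → (pos A hn x = pos A hn y ↔ x = y) := fun hx hy =>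
    ⟨fun h1 => le_antisymm ((hle hx hy).1 h1.le) ((hle hy hx).1 h1.ge), fun h1 => by rw [h1]⟩
  have hlt : ∀ {x y : ι}, x ∈ A → y ∈ A → (pos A hn x < pos A hn y ↔ x < y) := fun hx hy => by
    rw [← not_le, ← not_le, hle hy hx]
  have key : ∀ u v : (s : Set ℕ), (pos A hn (g u).1, pos A hn (g u).2) =
      (pos A hn (g v).1, pos A hn (g v).2) → u = v := by
    intro u v huv
    rw [Prod.mk.injEq, heq (hA1 _ u.2) (hA1 _ v.2), heq (hA2 _ u.2) (hA2 _ v.2)] at huv
    exact Subtype.ext (hg (Prod.ext huv.1 huv.2))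
  refine h2.mono ⟨⟨fun u => (pos A hn (g u.1).1, pos A hn (g u.1).2), fun u v huv => key u v huv⟩,
    fun {u v} => ?_⟩
  show (grid (Fin n)).Adj (pos A hn (g u.1).1, pos A hn (g u.1).2)
    (pos A hn (g v.1).1, pos A hn (g v.1).2) ↔ R.Adj u.1 v.1
  rw [hR]
  unfold grid
  rw [SimpleGraph.fromRel_adj, SimpleGraph.fromRel_adj]
  refine and_congr ?_ ?_
  · refine not_congr ⟨fun e => ?_, fun e => ?_⟩
    · rw [key u v e]
    · rw [e]
  · simp only [heq (hA1 _ u.2) (hA1 _ v.2), heq (hA2 _ u.2) (hA2 _ v.2),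
      hlt (hA1 _ u.2) (hA1 _ v.2), hlt (hA2 _ u.2) (hA2 _ v.2),
      heq (hA1 _ v.2) (hA1 _ u.2), heq (hA2 _ v.2) (hA2 _ u.2),
      hlt (hA1 _ v.2) (hA1 _ u.2), hlt (hA2 _ v.2) (hA2 _ u.2)]

end Pool.Agent.Y545.Mon
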