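import Pool.Agent.Y545.GI1
import Pool.Agent.Y545.GI2
import Pool.Agent.Y545.Mon

set_option autoImplicit false

/-! The flipped graph of a bipartite graph. -/

namespace Pool.Agent.Y545.GI

open Pool.Agent.Y545.Mon (Vx Kind arc Flipped In pos pos_le)

variable {Ro Co Ro' Co' : Type} {S : Ro → Co → Prop} {S' : Ro' → Co' → Prop} {r M : ℕ}
  {F : Fin (r + 2) → Fin (r + 2) → Prop}

/-- the flipped graph -/
def EV (S : Ro → Co → Prop) (r M : ℕ) (s : Bool) (F : Fin (r + 2) → Fin (r + 2) → Prop)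
    (hF : ∀ a b, F a b → F b a) : SimpleGraph (Vt S r M) where
  Adj u v := u ≠ v ∧ Fl F Vt.lay (YV s) u v
  symm := ⟨fun u v h => ⟨h.1.symm, fun h' => h.2 ⟨fun h1 => hF _ _ (h'.1 (yv_symm h1)), fun h1 =>
    yv_symm (h'.2 (hF _ _ h1))⟩⟩⟩
  loopless := ⟨fun _ h => h.1 rfl⟩

theorem rich [Fintype Ro] [Fintype Co] (s : Bool)
    (hM : ∃ N : Finset (Ro × Co), (∀ e, S e.1 e.2 → e ∈ N) ∧
      Fintype.card Ro + Fintype.card Co + N.card * r + 4 ≤ M) :
    Rich (Vt.lay : Vt S r M → Fin (r + 2)) (YV s) M where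
  sy _ _ h := yv_symm h
  irr u := yv_irr s u
  many a := ⟨fun m => .z a m, fun m m' h => by
    simp only [Vt.z.injEq, true_and] at h
    exact h, fun m => ⟨rfl, fun v => yv_z _ _ _ _⟩⟩
  few := by
    classical
    obtain ⟨N, hN, hN'⟩ := hM
    let f : Ro ⊕ Co ⊕ (N × Fin r) → Vt S r M ⊕ Unit := fun x => match x with
      | .inl i => .inl (.a i)
      | .inr (.inl j) => .inl (.b j)
      | .inr (.inr (e, t)) => if h : S e.1.1 e.1.2 then .inl (.p e.1.1 e.1.2 h t) else .inr ()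
    let s1 : Finset (Vt S r M ⊕ Unit) := Finset.univ.image f
    let s2 : Finset (Vt S r M) := s1.preimage Sum.inl Sum.inl_injective.injOn
    refine ⟨s2, ?_, fun u hu => ?_⟩
    · have h1 : s2.card ≤ s1.card := by
        refine Finset.card_le_card_of_injOn Sum.inl (fun x hx => ?_) Sum.inl_injective.injOn
        exact Finset.mem_preimage.1 hx
      have h2 : s1.card ≤ Fintype.card (Ro ⊕ Co ⊕ (N × Fin r)) := Finset.card_image_le
      simp only [Fintype.card_sum, Fintype.card_prod, Fintype.card_coe, Fintype.card_fin] at h2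
      omega
    · refine Finset.mem_preimage.2 (Finset.mem_image.2 ?_)
      rcases u with i | j | ⟨i, j, h, t⟩ | ⟨l, m⟩
      · exact ⟨.inl i, Finset.mem_univ _, rfl⟩
      · exact ⟨.inr (.inl j), Finset.mem_univ _, rfl⟩
      · exact ⟨.inr (.inr (⟨(i, j), hN (i, j) h⟩, t)), Finset.mem_univ _, dif_pos h⟩
      · obtain ⟨v, hv⟩ := hu
        exact absurd hv (yv_z _ _ _ _)

/-- an isomorphism of the flipped graphs gives an isomorphism of the relations between the rows -/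
theorem recover [Fintype Ro] [Fintype Co] [Fintype Ro'] [Fintype Co'] {s : Bool}
    (hF : ∀ a b, F a b → F b a) (hr : 1 ≤ r) (hS : Inc S) (hS' : Inc S')
    (hM : ∃ N : Finset (Ro × Co), (∀ e, S e.1 e.2 → e ∈ N) ∧
      Fintype.card Ro + Fintype.card Co + N.card * r + 4 ≤ M)
    (hM' : ∃ N : Finset (Ro' × Co'), (∀ e, S' e.1 e.2 → e ∈ N) ∧
      Fintype.card Ro' + Fintype.card Co' + N.card * r + 4 ≤ M)
    (φ : EV S r M s F hF ≃g EV S' r M s F hF) :
    ∃ σ : Ro ≃ Ro', ∀ i i', (i ≠ i' ∧ ∃ j, S i j ∧ S i' j) ↔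
      (σ i ≠ σ i' ∧ ∃ j, S' (σ i) j ∧ S' (σ i') j) := by
  have h1 : ∀ u v, YV s u v ↔ YV s (φ u) (φ v) := by
    intro u v
    by_cases huv : u = v
    · rw [huv]
      exact iff_of_false (yv_irr _ _) (yv_irr _ _)
    refine unflip hF (rich s hM) (rich s hM') φ.toEquiv (fun u v huv => ?_) u v huv
    have h2 : (EV S' r M s F hF).Adj (φ u) (φ v) ↔ (EV S r M s F hF).Adj u v := φ.map_adj_iff
    have h3 : φ u ≠ φ v := fun e => huv (φ.injective e)
    exact ⟨fun h => (h2.2 ⟨huv, h⟩).2, fun h => (h2.1 ⟨h3, h⟩).2⟩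
  have h2 : ∀ i, ∃ i', φ (.a i) = .a i' := fun i =>
    (rt_iff hS' hr s _).1 ((rt_iff_map s φ.toEquiv h1).1 ((rt_iff hS hr s _).2 ⟨i, rfl⟩))
  choose σ hσ using h2
  have hinj : Function.Injective σ := by
    intro i i' h
    have : φ (.a i) = φ (.a i') := by rw [hσ, hσ, h]
    have h3 := φ.injective this
    simpa using h3
  have hsur : Function.Surjective σ := by
    intro i'
    obtain ⟨u, hu⟩ := φ.surjective (.a i')
    have h3 : Rt s (YV s) u := (rt_iff_map s φ.toEquiv h1).2 (by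
      show Rt s (YV s) (φ u)
      rw [hu]
      exact (rt_iff hS' hr s _).2 ⟨i', rfl⟩)
    obtain ⟨i, rfl⟩ := (rt_iff hS hr s _).1 h3
    rw [hσ] at hu
    exact ⟨i, by simpa using hu⟩
  refine ⟨Equiv.ofBijective σ ⟨hinj, hsur⟩, fun i i' => ?_⟩
  rw [← lk_iff (M := M) hS hr s, lk_iff_map s φ.toEquiv h1]
  show Lk s (YV s) (φ (.a i)) (φ (.a i')) ↔ _
  rw [hσ, hσ, lk_iff hS' hr s]
  rfl

/-- the map of the vertices -/
def Vt.map (σ : Ro → Ro') (τ : Co → Co') (h : ∀ i j, S i j → S' (σ i) (τ j)) :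
    Vt S r M → Vt S' r M
  | .a i => .a (σ i)
  | .b j => .b (τ j)
  | .p i j hj t => .p (σ i) (τ j) (h _ _ hj) t
  | .z l m => .z l m

/-- isomorphic bipartite graphs have isomorphic flipped graphs -/
theorem functor {s : Bool} (hF : ∀ a b, F a b → F b a) (σ : Ro ≃ Ro') (τ : Co ≃ Co')
    (h : ∀ i j, S i j ↔ S' (σ i) (τ j)) :
    Nonempty (EV S r M s F hF ≃g EV S' r M s F hF) := by
  have h' : ∀ i j, S' i j → S (σ.symm i) (τ.symm j) := fun i j hij =>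
    (h _ _).2 (by rwa [σ.apply_symm_apply, τ.apply_symm_apply])
  let e : Vt S r M ≃ Vt S' r M :=
    { toFun := Vt.map σ τ fun i j => (h i j).1
      invFun := Vt.map σ.symm τ.symm h'
      left_inv := by
        rintro (i | j | ⟨i, j, hj, t⟩ | ⟨l, m⟩) <;> simp [Vt.map]
      right_inv := by
        rintro (i | j | ⟨i, j, hj, t⟩ | ⟨l, m⟩) <;> simp [Vt.map] }
  have harc : ∀ u v : Vt S r M, arcV s u v ↔ arcV s (e u) (e v) := by
    rintro (i | j | ⟨i, j, hj, t⟩ | ⟨l, m⟩) (i' | j' | ⟨i', j', hj', t'⟩ | ⟨l', m'⟩) <;>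
      simp [e, Vt.map, arcV]
  have hlay : ∀ u : Vt S r M, (e u).lay = u.lay := by
    rintro (i | j | ⟨i, j, hj, t⟩ | ⟨l, m⟩) <;> rfl
  refine ⟨⟨e, fun {u v} => ?_⟩⟩
  show (e u ≠ e v ∧ ¬ ((arcV s (e u) (e v) ∨ arcV s (e v) (e u)) ↔ F (e u).lay (e v).lay)) ↔
    (u ≠ v ∧ ¬ ((arcV s u v ∨ arcV s v u) ↔ F u.lay v.lay))
  rw [← harc, ← harc, hlay, hlay, e.injective.ne_iff]

/-! ### The embedding into the crossings -/

/-- indices of rows and columns of the crossing -/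
abbrev Ix (Ro Co : Type) (r M : ℕ) : Type := Ro ⊕ Co ⊕ (Fin (r + 2) × Fin M)

/-- the embedding -/
def toVx {ι : Type} (c : Ix Ro Co r M → ι) : Vt S r M → Vx ι r
  | .a i => .a (c (.inl i))
  | .b j => .b (c (.inr (.inl j)))
  | .p i j _ t => .p (c (.inl i)) (c (.inr (.inl j))) t
  | .z l m => if h0 : (l : ℕ) = 0 then .a (c (.inr (.inr (l, m))))
      else if h1 : (l : ℕ) = r + 1 then .b (c (.inr (.inr (l, m))))
      else .p (c (.inr (.inr (l, m)))) (c (.inr (.inr (l, m)))) ⟨l - 1, by omega⟩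

theorem toVx_z {ι : Type} (c : Ix Ro Co r M → ι) (l : Fin (r + 2)) (m : Fin M) :
    ((toVx c (.z l m : Vt S r M) = .a (c (.inr (.inr (l, m)))) ∧ (l : ℕ) = 0) ∨
    (toVx c (.z l m : Vt S r M) = .b (c (.inr (.inr (l, m)))) ∧ (l : ℕ) = r + 1) ∨
    ∃ t : Fin r, toVx c (.z l m : Vt S r M) = .p (c (.inr (.inr (l, m))))
      (c (.inr (.inr (l, m)))) t ∧ (l : ℕ) = t + 1) := by
  by_cases h0 : (l : ℕ) = 0
  · exact Or.inl ⟨dif_pos h0, h0⟩
  · by_cases h1 : (l : ℕ) = r + 1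
    · exact Or.inr (Or.inl ⟨(dif_neg h0).trans (dif_pos h1), h1⟩)
    · refine Or.inr (Or.inr ⟨⟨l - 1, by omega⟩, (dif_neg h0).trans (dif_neg h1), ?_⟩)
      show (l : ℕ) = l - 1 + 1
      omega

theorem toVx_inj {ι : Type} {c : Ix Ro Co r M → ι} (hc : Function.Injective c) :
    Function.Injective (toVx c : Vt S r M → Vx ι r) := by
  intro u v h
  rcases u with i | j | ⟨i, j, hj, t⟩ | ⟨l, m⟩ <;> rcases v with i' | j' | ⟨i', j', hj', t'⟩ | ⟨l', m'⟩
  case z.z =>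
    rcases toVx_z (S := S) c l m with ⟨e1, e2⟩ | ⟨e1, e2⟩ | ⟨t, e1, e2⟩ <;>
      rcases toVx_z (S := S) c l' m' with ⟨e3, e4⟩ | ⟨e3, e4⟩ | ⟨t', e3, e4⟩ <;> rw [e1, e3] at h <;>
      simp only [Vx.a.injEq, Vx.b.injEq, Vx.p.injEq, hc.eq_iff, Sum.inr.injEq, Prod.mk.injEq,
        reduceCtorEq] at h
    · rw [h.1, h.2]
    · rw [h.1, h.2]
    · rw [h.1.1, h.1.2]
  all_goals try (
    rcases toVx_z (S := S) c l m with ⟨e1, e2⟩ | ⟨e1, e2⟩ | ⟨t, e1, e2⟩ <;> rw [e1] at h <;>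
      simp [toVx, hc.eq_iff] at h)
  all_goals try (
    rcases toVx_z (S := S) c l' m' with ⟨e1, e2⟩ | ⟨e1, e2⟩ | ⟨t, e1, e2⟩ <;> rw [e1] at h <;>
      simp [toVx, hc.eq_iff] at h)
  all_goals simp [toVx, hc.eq_iff] at h
  · rw [h]
  · rw [h]
  · obtain ⟨rfl, rfl, rfl⟩ := h
    rfl

theorem toVx_layer {ι : Type} (c : Ix Ro Co r M → ι) (u : Vt S r M) :
    (toVx c u).layer = u.lay := by
  rcases u with i | j | ⟨i, j, hj, t⟩ | ⟨l, m⟩
  · rfl
  · rfl
  · rfl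
  · rcases toVx_z (S := S) c l m with ⟨e1, e2⟩ | ⟨e1, e2⟩ | ⟨t, e1, e2⟩ <;> rw [e1]
    · exact Fin.ext e2.symm
    · exact Fin.ext e2.symm
    · refine Fin.ext ?_
      show (t : ℕ) + 1 = l
      exact e2.symm

/-- the kind of the crossing -/
def kd (s : Bool) : Kind := if s = true then Kind.clique else Kind.star

theorem toVx_arc1 {ι : Type} [LinearOrder ι] {c : Ix Ro Co r M → ι} (hc : Function.Injective c)
    (s : Bool) {u v : Vt S r M} (huv : u ≠ v) :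
    arc (kd s) (toVx c u) (toVx c v) ↔ arcV s u v := by
  rcases u with i | j | ⟨i, j, hj, t⟩ | ⟨l, m⟩ <;> rcases v with i' | j' | ⟨i', j', hj', t'⟩ | ⟨l', m'⟩
  case z.z =>
    have hne : ¬ (l = l' ∧ m = m') := fun h => huv (by rw [h.1, h.2])
    rcases toVx_z (S := S) c l m with ⟨e1, e2⟩ | ⟨e1, e2⟩ | ⟨t, e1, e2⟩ <;>
      rcases toVx_z (S := S) c l' m' with ⟨e3, e4⟩ | ⟨e3, e4⟩ | ⟨t', e3, e4⟩ <;> rw [e1, e3] <;>
      cases s <;> simp [arc, arcV, kd, hc.eq_iff] <;> tauto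
  case p.p =>
    cases s
    · simp [toVx, arc, arcV, kd, hc.eq_iff]
    · simp only [toVx, arc, arcV, kd, hc.eq_iff, Sum.inl.injEq, Sum.inr.injEq, if_true, true_and]
      have hne : i = i' → j = j' → t = t' → False := by
        rintro rfl rfl rfl
        exact huv rfl
      constructor
      · rintro (h | ⟨h1, h2, h3⟩ | ⟨h1, h2, h3⟩)
        · exact Or.inl h
        · exact Or.inr (Or.inl ⟨h1, fun e => hne h1 e (Fin.ext (by omega)), h2, h3⟩)
        · exact Or.inr (Or.inr ⟨h1, fun e => hne e h1 (Fin.ext (by omega)), h2, h3⟩)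
      · rintro (h | ⟨h1, h2, h3⟩ | ⟨h1, -, h3⟩)
        · exact Or.inl h
        · exact Or.inr (Or.inl ⟨h1, h3⟩)
        · exact Or.inr (Or.inr ⟨h1, h3⟩)
  case z.a | z.b | z.p =>
    rcases toVx_z (S := S) c l m with ⟨e1, e2⟩ | ⟨e1, e2⟩ | ⟨t, e1, e2⟩ <;> rw [e1] <;>
      cases s <;> simp [toVx, arc, arcV, kd, hc.eq_iff]
  case a.z | b.z | p.z =>
    rcases toVx_z (S := S) c l' m' with ⟨e1, e2⟩ | ⟨e1, e2⟩ | ⟨t, e1, e2⟩ <;> rw [e1] <;>
      cases s <;> simp [toVx, arc, arcV, kd, hc.eq_iff]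
  all_goals cases s <;> simp [toVx, arc, arcV, kd, hc.eq_iff]

theorem toVx_arc {ι : Type} [LinearOrder ι] {c : Ix Ro Co r M → ι} (hc : Function.Injective c)
    (s : Bool) {u v : Vt S r M} (huv : u ≠ v) :
    (arc (kd s) (toVx c u) (toVx c v) ∨ arc (kd s) (toVx c v) (toVx c u)) ↔ YV s u v := by
  rw [toVx_arc1 hc s huv, toVx_arc1 hc s huv.symm]
  rfl

end Pool.Agent.Y545.GI
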