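import Pool.Agent.Y545.GI3

set_option autoImplicit false

/-! Graphs as bipartite graphs, and the classes with flipped star or clique crossings. -/

namespace Pool.Agent.Y545.GI

open Pool.Agent.Y545.Mon (Vx Kind arc Flipped In IsFlip crossing)

/-- For some `r ≥ 1` and for every `n` the class `𝒞` contains, as an induced subgraph, a flipped star
`r`-crossing or a flipped clique `r`-crossing of order `n`. -/
def Crossings (𝒞 : (n : ℕ) → SimpleGraph (Fin n) → Prop) : Prop :=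
  ∃ r : ℕ, 1 ≤ r ∧ ∀ n : ℕ, ∃ (k : Kind) (G : SimpleGraph (Vx (Fin n) r)),
    (k = Kind.star ∨ k = Kind.clique) ∧ IsFlip (crossing k (Fin n) r) G ∧ In 𝒞 G

/-- one kind and one flip occur for arbitrarily large orders -/
theorem Crossings.cases {𝒞 : (n : ℕ) → SimpleGraph (Fin n) → Prop} (h : Crossings 𝒞) :
    ∃ r : ℕ, 1 ≤ r ∧ ∃ (s : Bool) (F : Fin (r + 2) → Fin (r + 2) → Prop), (∀ a b, F a b → F b a) ∧
      ∀ m : ℕ, ∃ n, m ≤ n ∧ ∃ G : SimpleGraph (Vx (Fin n) r),
        (∀ u v, u ≠ v → (G.Adj u v ↔ Flipped (kd s) F u v)) ∧ In 𝒞 G := by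
  classical
  obtain ⟨r, hr, h⟩ := h
  refine ⟨r, hr, ?_⟩
  have key : ∀ n : ℕ, ∃ o : Bool × (Fin (r + 2) → Fin (r + 2) → Prop),
      (∀ a b, o.2 a b → o.2 b a) ∧ ∃ G : SimpleGraph (Vx (Fin n) r),
        (∀ u v, u ≠ v → (G.Adj u v ↔ Flipped (kd o.1) o.2 u v)) ∧ In 𝒞 G := by
    intro n
    obtain ⟨k, G, hk, ⟨F, hF⟩, hG⟩ := h n
    obtain ⟨s, rfl⟩ : ∃ s, k = kd s := by
      rcases hk with rfl | rfl
      · exact ⟨false, rfl⟩
      · exact ⟨true, rfl⟩
    refine ⟨(s, fun a b => F (min a b) (max a b)), fun a b hab => ?_, G, fun u v huv => ?_, hG⟩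
    · show F (min b a) (max b a)
      rw [min_comm, max_comm]
      exact hab
    · have h1 := hF u v huv
      have h2 := hF v u huv.symm
      have h3 : ∀ u v : Vx (Fin n) r, u ≠ v → ((crossing (kd s) (Fin n) r).Adj u v ↔
          (arc (kd s) u v ∨ arc (kd s) v u)) := by
        intro u v huv
        unfold crossing
        rw [SimpleGraph.fromRel_adj]
        exact and_iff_right huv
      rw [h3 u v huv] at h1
      rw [h3 v u huv.symm, G.adj_comm, or_comm] at h2
      unfold Flipped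
      show _ ↔ ¬ (_ ↔ F (min u.layer v.layer) (max u.layer v.layer))
      rcases le_total u.layer v.layer with h4 | h4
      · rw [min_eq_left h4, max_eq_right h4]
        exact h1
      · rw [min_eq_right h4, max_eq_left h4]
        exact h2
  choose o ho1 ho2 using key
  obtain ⟨c, hc⟩ := Finite.exists_infinite_fiber o
  refine ⟨c.1, c.2, ?_, fun m => ?_⟩
  · obtain ⟨n, hn⟩ := hc.nonempty
    have : o n = c := hn
    rw [← this]
    exact ho1 n
  · have hinf : (o ⁻¹' {c}).Infinite := Set.infinite_coe_iff.1 hc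
    obtain ⟨n, hn, hmn⟩ := hinf.exists_gt m
    have hoc : o n = c := hn
    obtain ⟨G, h1, h2⟩ := ho2 n
    rw [hoc] at h1
    exact ⟨n, hmn.le, G, h1, h2⟩

variable {r M : ℕ} {F : Fin (r + 2) → Fin (r + 2) → Prop}

/-- the flipped graphs of finite bipartite graphs are in the class -/
theorem in_ev {𝒞 : (n : ℕ) → SimpleGraph (Fin n) → Prop} {Ro Co : Type} [Fintype Ro] [Fintype Co]
    (S : Ro → Co → Prop) {s : Bool} (hF : ∀ a b, F a b → F b a)
    (h : ∀ m : ℕ, ∃ n, m ≤ n ∧ ∃ G : SimpleGraph (Vx (Fin n) r),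
        (∀ u v, u ≠ v → (G.Adj u v ↔ Flipped (kd s) F u v)) ∧ In 𝒞 G) :
    In 𝒞 (EV S r M s F hF) := by
  obtain ⟨n, hn, G, h1, h2⟩ := h (Fintype.card (Ix Ro Co r M))
  let c : Ix Ro Co r M → Fin n := fun x => Fin.castLE hn (Fintype.equivFin _ x)
  have hc : Function.Injective c := (Fin.castLE_injective hn).comp (Equiv.injective _)
  have hinj := toVx_inj (S := S) hc
  refine h2.mono ⟨⟨toVx c, hinj⟩, fun {u v} => ?_⟩
  show G.Adj (toVx c u) (toVx c v) ↔ (u ≠ v ∧ Fl F Vt.lay (YV s) u v)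
  by_cases huv : u = v
  · subst huv
    exact iff_of_false G.irrefl fun h => h.1 rfl
  · rw [h1 _ _ fun e => huv (hinj e)]
    unfold Flipped Fl
    rw [toVx_arc hc s huv, toVx_layer, toVx_layer]
    exact (and_iff_right huv).symm

/-! ### Graphs -/

/-- the columns -/
abbrev CoG {n : ℕ} (G : SimpleGraph (Fin n)) : Type :=
  (Fin n × Fin 3) ⊕ {p : Fin n × Fin n // p.1 < p.2 ∧ G.Adj p.1 p.2}

/-- the bipartite graph -/
def SG {n : ℕ} (G : SimpleGraph (Fin n)) : Fin n → CoG G → Prop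
  | i, .inl (a, _) => i = a
  | i, .inr p => i = p.1.1 ∨ i = p.1.2

theorem inc_SG {n : ℕ} (G : SimpleGraph (Fin n)) : Inc (SG G) where
  three i := ⟨.inl (i, 0), .inl (i, 1), .inl (i, 2), by simp, by simp, by simp, rfl, rfl, rfl⟩
  two := by
    rintro (⟨a, k⟩ | p) i1 i2 i3 h1 h2 h3
    · left
      have h1 : i1 = a := h1
      have h2 : i2 = a := h2
      rw [h1, h2]
    · have h1 : i1 = p.1.1 ∨ i1 = p.1.2 := h1
      have h2 : i2 = p.1.1 ∨ i2 = p.1.2 := h2
      have h3 : i3 = p.1.1 ∨ i3 = p.1.2 := h3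
      rcases h1 with h1 | h1 <;> rcases h2 with h2 | h2 <;> rcases h3 with h3 | h3 <;>
        simp [h1, h2, h3]

theorem SG_adj {n : ℕ} (G : SimpleGraph (Fin n)) (i i' : Fin n) :
    (i ≠ i' ∧ ∃ j, SG G i j ∧ SG G i' j) ↔ G.Adj i i' := by
  constructor
  · rintro ⟨hne, (⟨a, k⟩ | p), h1, h2⟩
    · have h1 : i = a := h1
      have h2 : i' = a := h2
      exact absurd (h1.trans h2.symm) hne
    · have h1 : i = p.1.1 ∨ i = p.1.2 := h1
      have h2 : i' = p.1.1 ∨ i' = p.1.2 := h2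
      have h3 := p.2.2
      rcases h1 with h1 | h1 <;> rcases h2 with h2 | h2
      · exact absurd (h1.trans h2.symm) hne
      · rw [h1, h2]
        exact h3
      · rw [h1, h2]
        exact h3.symm
      · exact absurd (h1.trans h2.symm) hne
  · intro h
    refine ⟨h.ne, ?_⟩
    rcases lt_or_gt_of_ne h.ne with h1 | h1
    · exact ⟨.inr ⟨(i, i'), h1, h⟩, Or.inl rfl, Or.inr rfl⟩
    · exact ⟨.inr ⟨(i', i), h1, h.symm⟩, Or.inr rfl, Or.inl rfl⟩

open Classical in
noncomputable instance {n : ℕ} (G : SimpleGraph (Fin n)) : Fintype (CoG G) := inferInstance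

/-- the number of isolated vertices in each layer -/
def bnd (r n : ℕ) : ℕ := n + (3 * n + n * n) + n * (3 * n + n * n) * r + 4

theorem card_CoG {n : ℕ} (G : SimpleGraph (Fin n)) :
    Fintype.card (CoG G) ≤ 3 * n + n * n := by
  classical
  rw [Fintype.card_sum, Fintype.card_prod, Fintype.card_fin, Fintype.card_fin]
  have h1 : Fintype.card {p : Fin n × Fin n // p.1 < p.2 ∧ G.Adj p.1 p.2} ≤
      Fintype.card (Fin n × Fin n) := Fintype.card_subtype_le _
  rw [Fintype.card_prod, Fintype.card_fin] at h1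
  have h2 : Fintype.card {p : Fin n × Fin n // p.1 < p.2 ∧ G.Adj p.1 p.2} ≤ n * n := by
    convert h1
  linarith

theorem bnd_SG {n : ℕ} (G : SimpleGraph (Fin n)) (hM : bnd r n ≤ M) :
    ∃ N : Finset (Fin n × CoG G), (∀ e, SG G e.1 e.2 → e ∈ N) ∧
      Fintype.card (Fin n) + Fintype.card (CoG G) + N.card * r + 4 ≤ M := by
  refine ⟨Finset.univ, fun _ _ => Finset.mem_univ _, ?_⟩
  have h1 := card_CoG G
  have h2 : (Finset.univ : Finset (Fin n × CoG G)).card ≤ n * (3 * n + n * n) := by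
    rw [Finset.card_univ, Fintype.card_prod, Fintype.card_fin]
    exact Nat.mul_le_mul_left _ h1
  have h3 := Nat.mul_le_mul_right r h2
  unfold bnd at hM
  rw [Fintype.card_fin]
  omega

/-- isomorphic graphs have the same columns -/
theorem cols_iso {n m : ℕ} {G : SimpleGraph (Fin n)} {H : SimpleGraph (Fin m)} (φ : G ≃g H) :
    ∃ τ : CoG G ≃ CoG H, ∀ i j, SG G i j ↔ SG H (φ i) (τ j) := by
  have hφ : ∀ p : {p : Fin n × Fin n // p.1 < p.2 ∧ G.Adj p.1 p.2},
      min (φ p.1.1) (φ p.1.2) < max (φ p.1.1) (φ p.1.2) ∧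
        H.Adj (min (φ p.1.1) (φ p.1.2)) (max (φ p.1.1) (φ p.1.2)) := by
    intro p
    have h1 : H.Adj (φ p.1.1) (φ p.1.2) := φ.map_adj_iff.2 p.2.2
    rcases lt_or_gt_of_ne h1.ne with h2 | h2
    · rw [min_eq_left h2.le, max_eq_right h2.le]
      exact ⟨h2, h1⟩
    · rw [min_eq_right h2.le, max_eq_left h2.le]
      exact ⟨h2, h1.symm⟩
  let f : CoG G → CoG H := fun x => match x with
    | .inl (a, k) => .inl (φ a, k)
    | .inr p => .inr ⟨(min (φ p.1.1) (φ p.1.2), max (φ p.1.1) (φ p.1.2)), hφ p⟩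
  have hinj : Function.Injective f := by
    rintro (⟨a, k⟩ | p) (⟨a', k'⟩ | p') h
    · simp only [f, Sum.inl.injEq, Prod.mk.injEq, EmbeddingLike.apply_eq_iff_eq] at h
      rw [h.1, h.2]
    · simp [f] at h
    · simp [f] at h
    · simp only [f, Sum.inr.injEq, Subtype.mk.injEq, Prod.mk.injEq] at h
      obtain ⟨⟨a, b⟩, hab, h1⟩ := p
      obtain ⟨⟨a', b'⟩, hab', h1'⟩ := p'
      simp only at h hab hab'
      have hne : φ a ≠ φ b := fun e => hab.ne (φ.injective e)
      have hne' : φ a' ≠ φ b' := fun e => hab'.ne (φ.injective e)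
      have h2 : (φ a = φ a' ∧ φ b = φ b') ∨ (φ a = φ b' ∧ φ b = φ a') := by
        rcases lt_or_gt_of_ne hne with k1 | k1 <;> rcases lt_or_gt_of_ne hne' with k2 | k2
        · rw [min_eq_left k1.le, min_eq_left k2.le, max_eq_right k1.le, max_eq_right k2.le] at h
          exact Or.inl h
        · rw [min_eq_left k1.le, min_eq_right k2.le, max_eq_right k1.le, max_eq_left k2.le] at h
          exact Or.inr h
        · rw [min_eq_right k1.le, min_eq_left k2.le, max_eq_left k1.le, max_eq_right k2.le] at h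
          exact Or.inr ⟨h.2, h.1⟩
        · rw [min_eq_right k1.le, min_eq_right k2.le, max_eq_left k1.le, max_eq_left k2.le] at h
          exact Or.inl ⟨h.2, h.1⟩
      rcases h2 with ⟨h3, h4⟩ | ⟨h3, h4⟩
      · have e1 := φ.injective h3
        have e2 := φ.injective h4
        subst e1 e2
        rfl
      · have e1 := φ.injective h3
        have e2 := φ.injective h4
        rw [e1, e2] at hab
        exact absurd hab (lt_asymm hab')
  have hsur : Function.Surjective f := by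
    rintro (⟨a, k⟩ | ⟨⟨c, d⟩, hcd, h1⟩)
    · exact ⟨.inl (φ.symm a, k), by simp [f]⟩
    · have h2 : G.Adj (φ.symm c) (φ.symm d) := φ.symm.map_adj_iff.2 h1
      simp only at hcd
      rcases lt_or_gt_of_ne h2.ne with h3 | h3
      · refine ⟨.inr ⟨(φ.symm c, φ.symm d), h3, h2⟩, ?_⟩
        simp only [f, RelIso.apply_symm_apply, Sum.inr.injEq, Subtype.mk.injEq, Prod.mk.injEq]
        exact ⟨min_eq_left hcd.le, max_eq_right hcd.le⟩
      · refine ⟨.inr ⟨(φ.symm d, φ.symm c), h3, h2.symm⟩, ?_⟩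
        simp only [f, RelIso.apply_symm_apply, Sum.inr.injEq, Subtype.mk.injEq, Prod.mk.injEq]
        exact ⟨min_eq_right hcd.le, max_eq_left hcd.le⟩
  refine ⟨Equiv.ofBijective f ⟨hinj, hsur⟩, ?_⟩
  rintro i (⟨a, k⟩ | p)
  · exact (φ.injective.eq_iff).symm
  · show (i = p.1.1 ∨ i = p.1.2) ↔
      (φ i = min (φ p.1.1) (φ p.1.2) ∨ φ i = max (φ p.1.1) (φ p.1.2))
    rcases le_total (φ p.1.1) (φ p.1.2) with h | h
    · rw [min_eq_left h, max_eq_right h, φ.injective.eq_iff, φ.injective.eq_iff]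
    · rw [min_eq_right h, max_eq_left h, φ.injective.eq_iff, φ.injective.eq_iff, or_comm]

/-- the reduction is correct -/
theorem main {n m : ℕ} (G : SimpleGraph (Fin n)) (H : SimpleGraph (Fin m)) {s : Bool}
    (hF : ∀ a b, F a b → F b a) (hr : 1 ≤ r) (hG : bnd r n ≤ M) (hH : bnd r m ≤ M) :
    Nonempty (G ≃g H) ↔ Nonempty (EV (SG G) r M s F hF ≃g EV (SG H) r M s F hF) := by
  constructor
  · rintro ⟨φ⟩
    obtain ⟨τ, hτ⟩ := cols_iso φ
    exact functor hF φ.toEquiv τ hτ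
  · rintro ⟨φ⟩
    obtain ⟨σ, hσ⟩ := recover hF hr (inc_SG G) (inc_SG H) (bnd_SG G hG) (bnd_SG H hH) φ
    refine ⟨⟨σ, fun {i i'} => ?_⟩⟩
    rw [← SG_adj H, ← SG_adj G, hσ]

end Pool.Agent.Y545.GI
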