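import Pool.Agent.Y545.GI4
import Pool.Agent.NPC.Num
import Pool.Agent.NPC.Dec

set_option autoImplicit false

/-! The adjacency matrix of the flipped graph is computed in polynomial time. -/

namespace Pool.Agent.Y545.GI

open Pool.Agent.NPC

/-- The adjacency matrix of a graph. -/
noncomputable def matr {n : ℕ} (G : SimpleGraph (Fin n)) : List (List Bool) := by
  classical
  exact List.ofFn fun i => List.ofFn fun j => decide (G.Adj i j)

/-- the entry of a matrix -/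
def adjM (M : List (List Bool)) (a b : ℕ) : Bool := (M.getD a []).getD b false

theorem matr_length {n : ℕ} (G : SimpleGraph (Fin n)) : (matr G).length = n := by
  unfold matr
  simp

theorem adjM_matr {n : ℕ} (G : SimpleGraph (Fin n)) (a b : ℕ) :
    adjM (matr G) a b = true ↔ ∃ (ha : a < n) (hb : b < n), G.Adj ⟨a, ha⟩ ⟨b, hb⟩ := by
  classical
  unfold adjM matr
  by_cases ha : a < n
  · by_cases hb : b < n
    · simp [List.getD_eq_getElem?_getD, ha, hb]
    · simp [List.getD_eq_getElem?_getD, ha, hb]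
  · simp [List.getD_eq_getElem?_getD, ha]

/-- codes of vertices -/
abbrev Cd : Type := ℕ × ℕ × ℕ × ℕ × ℕ

/-- codes of columns -/
def colOK (M : List (List Bool)) (a b : ℕ) : Bool :=
  decide (a < M.length) && ((decide (M.length ≤ b) && decide (b < M.length + 3)) ||
    (decide (a < b) && adjM M a b))

/-- codes of vertices of the flipped graph -/
def valid (r K : ℕ) (M : List (List Bool)) (c : Cd) : Bool :=
  (decide (c.1 = 0) && (decide (c.2.1 < M.length) && (decide (c.2.2.1 = 0) &&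
    (decide (c.2.2.2.1 = 0) && decide (c.2.2.2.2 = 0))))) ||
  ((decide (c.1 = 1) && (colOK M c.2.1 c.2.2.1 && (decide (c.2.2.2.1 = 0) &&
    decide (c.2.2.2.2 = 0)))) ||
  ((decide (c.1 = 2) && (decide (c.2.2.2.2 < r) && (colOK M c.2.2.1 c.2.2.2.1 &&
    (decide (c.2.1 = c.2.2.1) || (decide (c.2.1 = c.2.2.2.1) && decide (c.2.1 < M.length)))))) ||
  (decide (c.1 = 3) && (decide (c.2.1 < r + 2) && (decide (c.2.2.1 < K) &&
    (decide (c.2.2.2.1 = 0) && decide (c.2.2.2.2 = 0)))))))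

/-- all quintuples of small numbers -/
def box (B : ℕ) : List Cd :=
  List.range B ×ˢ (List.range B ×ˢ (List.range B ×ˢ (List.range B ×ˢ List.range B)))

theorem mem_box {B : ℕ} {c : Cd} : c ∈ box B ↔
    c.1 < B ∧ c.2.1 < B ∧ c.2.2.1 < B ∧ c.2.2.2.1 < B ∧ c.2.2.2.2 < B := by
  unfold box
  rw [List.mem_product, List.mem_product, List.mem_product, List.mem_product, List.mem_range,
    List.mem_range, List.mem_range, List.mem_range, List.mem_range]

/-- the list of vertices -/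
def verts (r K : ℕ) (M : List (List Bool)) : List Cd :=
  (box (K + r + M.length + 4)).filter (valid r K M)

/-- the edges in one direction -/
def arcB (r : ℕ) (s : Bool) (u v : Cd) : Bool :=
  (decide (u.1 = 0) && (decide (v.1 = 2) && (decide (u.2.1 = v.2.1) &&
    decide (v.2.2.2.2 = 0)))) ||
  ((decide (u.1 = 2) && (decide (v.1 = 1) && ((decide (v.2.1 = u.2.2.1) &&
    decide (v.2.2.1 = u.2.2.2.1)) && decide (u.2.2.2.2 + 1 = r)))) ||
  (decide (u.1 = 2) && (decide (v.1 = 2) &&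
    ((decide (u.2.1 = v.2.1) && ((decide (u.2.2.1 = v.2.2.1) && decide (u.2.2.2.1 = v.2.2.2.1)) &&
      decide (v.2.2.2.2 = u.2.2.2.2 + 1))) ||
    (s && ((decide (u.2.1 = v.2.1) && (!(decide (u.2.2.1 = v.2.2.1) &&
        decide (u.2.2.2.1 = v.2.2.2.1)) && (decide (u.2.2.2.2 = 0) && decide (v.2.2.2.2 = 0)))) ||
      ((decide (u.2.2.1 = v.2.2.1) && decide (u.2.2.2.1 = v.2.2.2.1)) &&
        (!(decide (u.2.1 = v.2.1)) && (decide (u.2.2.2.2 + 1 = r) &&
          decide (v.2.2.2.2 + 1 = r))))))))))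

/-- the layer -/
def layB (r : ℕ) (u : Cd) : ℕ :=
  bif decide (u.1 = 0) then 0 else bif decide (u.1 = 1) then r + 1 else
    bif decide (u.1 = 2) then u.2.2.2.2 + 1 else u.2.1

/-- adjacency of codes; `L` is the list of the pairs of layers that are flipped -/
def eB (r : ℕ) (s : Bool) (L : List (ℕ × ℕ)) (u v : Cd) : Bool :=
  !(decide (u = v)) && ((arcB r s u v || arcB r s v u) ^^ decide ((layB r u, layB r v) ∈ L))

/-- the matrix of the flipped graph -/
def outM (r : ℕ) (s : Bool) (L : List (ℕ × ℕ)) (K : ℕ) (M : List (List Bool)) :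
    List (List Bool) :=
  (verts r K M).map fun u => (verts r K M).map fun v => eB r s L u v

section enc

variable {n r K : ℕ} {G : SimpleGraph (Fin n)}

/-- the code of a column -/
def cc : CoG G → ℕ × ℕ
  | .inl (a, k) => (a, n + k)
  | .inr p => (p.1.1, p.1.2)

theorem cc_inj : Function.Injective (cc (G := G)) := by
  rintro (⟨a, k⟩ | ⟨⟨a, b⟩, h⟩) (⟨a', k'⟩ | ⟨⟨a', b'⟩, h'⟩) e
  · simp only [cc, Prod.mk.injEq] at e
    have e1 : a = a' := Fin.ext e.1
    have e2 : k = k' := Fin.ext (by omega)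
    rw [e1, e2]
  · simp only [cc, Prod.mk.injEq] at e
    have := b'.2
    omega
  · simp only [cc, Prod.mk.injEq] at e
    have := b.2
    omega
  · simp only [cc, Prod.mk.injEq] at e
    have e1 : a = a' := Fin.ext e.1
    have e2 : b = b' := Fin.ext e.2
    subst e1 e2
    rfl

theorem colOK_iff (a b : ℕ) : colOK (matr G) a b = true ↔ ∃ c : CoG G, cc c = (a, b) := by
  unfold colOK
  rw [matr_length]
  simp only [Bool.and_eq_true, Bool.or_eq_true, decide_eq_true_eq, adjM_matr]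
  constructor
  · rintro ⟨ha, ⟨h1, h2⟩ | ⟨h1, h2, h3, h4⟩⟩
    · refine ⟨.inl (⟨a, ha⟩, ⟨b - n, by omega⟩), ?_⟩
      simp only [cc, Prod.mk.injEq, true_and]
      omega
    · exact ⟨.inr ⟨(⟨a, h2⟩, ⟨b, h3⟩), h1, h4⟩, rfl⟩
  · rintro ⟨⟨a', k⟩ | ⟨⟨a', b'⟩, h⟩, e⟩
    · simp only [cc, Prod.mk.injEq] at e
      have h1 := a'.2
      have h2 := k.2
      exact ⟨by omega, Or.inl ⟨by omega, by omega⟩⟩
    · simp only [cc, Prod.mk.injEq] at e
      have h1 := a'.2
      have h2 := b'.2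
      obtain ⟨e1, e2⟩ := e
      subst e1 e2
      exact ⟨h1, Or.inr ⟨h.1, h1, h2, h.2⟩⟩

/-- the code of a vertex -/
def enc : Vt (SG G) r K → Cd
  | .a i => (0, i, 0, 0, 0)
  | .b j => (1, (cc j).1, (cc j).2, 0, 0)
  | .p i j _ t => (2, i, (cc j).1, (cc j).2, t)
  | .z l m => (3, l, m, 0, 0)

theorem enc_inj : Function.Injective (enc (G := G) (r := r) (K := K)) := by
  intro u v h
  have h1 := congrArg (fun c : Cd => c.1) h
  have h2 := congrArg (fun c : Cd => c.2.1) h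
  have h3 := congrArg (fun c : Cd => c.2.2.1) h
  have h4 := congrArg (fun c : Cd => c.2.2.2.1) h
  have h5 := congrArg (fun c : Cd => c.2.2.2.2) h
  rcases u with i | j | ⟨i, j, hj, t⟩ | ⟨l, m⟩ <;>
    rcases v with i' | j' | ⟨i', j', hj', t'⟩ | ⟨l', m'⟩ <;>
    simp only [enc] at h1 h2 h3 h4 h5 <;> first | exact absurd h1 (by decide) | skip
  · rw [Fin.ext h2]
  · rw [cc_inj (Prod.ext h2 h3)]
  · have e1 := Fin.ext h2
    have e2 := cc_inj (Prod.ext h3 h4)
    have e3 := Fin.ext h5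
    subst e1 e2 e3
    rfl
  · rw [Fin.ext h2, Fin.ext h3]

theorem SG_cc (i : Fin n) (j : CoG G) : SG G i j ↔
    ((i : ℕ) = (cc j).1 ∨ ((i : ℕ) = (cc j).2 ∧ (i : ℕ) < n)) := by
  rcases j with ⟨a, k⟩ | ⟨⟨a, b⟩, h⟩
  · show i = a ↔ _
    simp only [cc]
    have := i.2
    rw [Fin.ext_iff]
    omega
  · show (i = a ∨ i = b) ↔ _
    simp only [cc]
    have := i.2
    rw [Fin.ext_iff, Fin.ext_iff]
    omega

theorem valid_iff (c : Cd) : valid r K (matr G) c = true ↔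
    ∃ u : Vt (SG G) r K, enc u = c := by
  obtain ⟨k, x, y, z, w⟩ := c
  unfold valid
  rw [matr_length]
  simp only [Bool.and_eq_true, Bool.or_eq_true, decide_eq_true_eq, colOK_iff]
  constructor
  · rintro (⟨rfl, h1, rfl, rfl, rfl⟩ | ⟨rfl, ⟨j, hj⟩, rfl, rfl⟩ | ⟨rfl, h1, ⟨j, hj⟩, h2⟩ |
      ⟨rfl, h1, h2, rfl, rfl⟩)
    · exact ⟨.a ⟨x, h1⟩, rfl⟩
    · refine ⟨.b j, ?_⟩
      simp only [enc, hj]
    · have h3 : x < n := by
        rcases h2 with h2 | h2
        · rcases j with ⟨a, k⟩ | ⟨⟨a, b⟩, h⟩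
          · simp only [cc, Prod.mk.injEq] at hj
            have := a.2
            omega
          · simp only [cc, Prod.mk.injEq] at hj
            have := a.2
            omega
        · exact h2.2
      have h4 : SG G ⟨x, h3⟩ j := by
        rw [SG_cc, hj]
        exact h2
      refine ⟨.p ⟨x, h3⟩ j h4 ⟨w, h1⟩, ?_⟩
      simp only [enc, hj]
    · exact ⟨.z ⟨x, h1⟩ ⟨y, h2⟩, rfl⟩
  · rintro ⟨u, hu⟩
    rcases u with i | j | ⟨i, j, hj, t⟩ | ⟨l, m⟩ <;> simp only [enc, Prod.mk.injEq] at hu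
    · obtain ⟨rfl, rfl, rfl, rfl, rfl⟩ := hu
      exact Or.inl ⟨rfl, i.2, rfl, rfl, rfl⟩
    · obtain ⟨rfl, rfl, rfl, rfl, rfl⟩ := hu
      exact Or.inr (Or.inl ⟨rfl, ⟨j, rfl⟩, rfl, rfl⟩)
    · obtain ⟨rfl, rfl, rfl, rfl, rfl⟩ := hu
      exact Or.inr (Or.inr (Or.inl ⟨rfl, t.2, ⟨j, rfl⟩, (SG_cc _ _).1 hj⟩))
    · obtain ⟨rfl, rfl, rfl, rfl, rfl⟩ := hu
      exact Or.inr (Or.inr (Or.inr ⟨rfl, l.2, m.2, rfl, rfl⟩))

theorem mem_verts (c : Cd) : c ∈ verts r K (matr G) ↔ ∃ u : Vt (SG G) r K, enc u = c := by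
  unfold verts
  rw [List.mem_filter, valid_iff]
  refine and_iff_right_of_imp ?_
  rintro ⟨u, rfl⟩
  rw [mem_box, matr_length]
  have hcc : ∀ j : CoG G, (cc j).1 < n ∧ (cc j).2 < n + 3 := by
    rintro (⟨a, k⟩ | ⟨⟨a, b⟩, h⟩)
    · have := a.2
      have := k.2
      simp only [cc]
      omega
    · have := a.2
      have := b.2
      simp only [cc]
      omega
  rcases u with i | j | ⟨i, j, hj, t⟩ | ⟨l, m⟩
  · have := i.2
    simp only [enc]
    omega
  · simp only [enc]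
    have h1 := hcc j
    omega
  · simp only [enc]
    have h1 := hcc j
    have := i.2
    have := t.2
    omega
  · have := l.2
    have := m.2
    simp only [enc]
    omega

theorem nodup_verts (r K : ℕ) (M : List (List Bool)) : (verts r K M).Nodup := by
  unfold verts
  refine List.Nodup.filter _ ?_
  exact List.nodup_range.product (List.nodup_range.product (List.nodup_range.product
    (List.nodup_range.product List.nodup_range)))

omit n K G in
theorem arcB_iff (s : Bool) (u v : Cd) : arcB r s u v = true ↔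
    (u.1 = 0 ∧ v.1 = 2 ∧ u.2.1 = v.2.1 ∧ v.2.2.2.2 = 0) ∨
    (u.1 = 2 ∧ v.1 = 1 ∧ (v.2.1 = u.2.2.1 ∧ v.2.2.1 = u.2.2.2.1) ∧ u.2.2.2.2 + 1 = r) ∨
    (u.1 = 2 ∧ v.1 = 2 ∧
      ((u.2.1 = v.2.1 ∧ (u.2.2.1 = v.2.2.1 ∧ u.2.2.2.1 = v.2.2.2.1) ∧
        v.2.2.2.2 = u.2.2.2.2 + 1) ∨
      (s = true ∧ ((u.2.1 = v.2.1 ∧ ¬ (u.2.2.1 = v.2.2.1 ∧ u.2.2.2.1 = v.2.2.2.1) ∧
          u.2.2.2.2 = 0 ∧ v.2.2.2.2 = 0) ∨
        ((u.2.2.1 = v.2.2.1 ∧ u.2.2.2.1 = v.2.2.2.1) ∧ ¬ (u.2.1 = v.2.1) ∧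
          u.2.2.2.2 + 1 = r ∧ v.2.2.2.2 + 1 = r))))) := by
  unfold arcB
  simp only [Bool.and_eq_true, Bool.or_eq_true, decide_eq_true_eq, Bool.not_eq_true',
    Bool.and_eq_false_iff, decide_eq_false_iff_not, ← not_and_or]

theorem arcB_enc (s : Bool) (u v : Vt (SG G) r K) :
    arcB r s (enc u) (enc v) = true ↔ arcV s u v := by
  have hcc : ∀ j j' : CoG G, ((cc j).1 = (cc j').1 ∧ (cc j).2 = (cc j').2) ↔ j = j' :=
    fun j j' => ⟨fun h => cc_inj (Prod.ext h.1 h.2), fun h => by rw [h]; exact ⟨rfl, rfl⟩⟩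
  have hi : ∀ i i' : Fin n, ((i : ℕ) = i') ↔ i = i' := fun i i' => Fin.ext_iff.symm
  rw [arcB_iff]
  rcases u with i | j | ⟨i, j, hj, t⟩ | ⟨l, m⟩ <;>
    rcases v with i' | j' | ⟨i', j', hj', t'⟩ | ⟨l', m'⟩
  case a.p => simp [enc, arcV, hi]
  case p.b => simp [enc, arcV, hcc]
  case p.p => simp [enc, arcV, hcc, hi]
  all_goals simp [enc, arcV]

theorem layB_enc (u : Vt (SG G) r K) : layB r (enc u) = u.lay := by
  rcases u with i | j | ⟨i, j, hj, t⟩ | ⟨l, m⟩ <;> simp [layB, enc, Vt.lay]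

theorem eB_enc {s : Bool} {F : Fin (r + 2) → Fin (r + 2) → Prop} (hF : ∀ a b, F a b → F b a)
    {L : List (ℕ × ℕ)} (hL : ∀ a b : Fin (r + 2), ((a : ℕ), (b : ℕ)) ∈ L ↔ F a b)
    (u v : Vt (SG G) r K) :
    eB r s L (enc u) (enc v) = true ↔ (EV (SG G) r K s F hF).Adj u v := by
  unfold eB
  rw [layB_enc, layB_enc]
  show _ ↔ (u ≠ v ∧ ¬ ((arcV s u v ∨ arcV s v u) ↔ F u.lay v.lay))
  rw [← hL, ← arcB_enc, ← arcB_enc, ← enc_inj.ne_iff]
  by_cases h1 : enc u = enc v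
  · simp [h1]
  · cases h2 : arcB r s (enc u) (enc v) <;> cases h3 : arcB r s (enc v) (enc u) <;>
      by_cases h4 : ((u.lay : ℕ), (v.lay : ℕ)) ∈ L <;> simp [h1, h4]

/-- the matrix is the matrix of a graph that is isomorphic to the flipped graph -/
theorem outM_spec {s : Bool} {F : Fin (r + 2) → Fin (r + 2) → Prop} (hF : ∀ a b, F a b → F b a)
    {L : List (ℕ × ℕ)} (hL : ∀ a b : Fin (r + 2), ((a : ℕ), (b : ℕ)) ∈ L ↔ F a b) :
    ∃ (m : ℕ) (G' : SimpleGraph (Fin m)), outM r s L K (matr G) = matr G' ∧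
      Nonempty (G' ≃g EV (SG G) r K s F hF) := by
  classical
  set V := verts r K (matr G) with hV
  have hmem : ∀ i : Fin V.length, ∃ u : Vt (SG G) r K, enc u = V[i] := fun i =>
    (mem_verts _).1 (List.getElem_mem i.2)
  choose e he using hmem
  have hinj : Function.Injective e := by
    intro i j hij
    have h1 : V[i] = V[j] := by rw [← he, ← he, hij]
    exact Fin.ext ((List.Nodup.getElem_inj_iff (nodup_verts _ _ _)).1 h1)
  have hsur : Function.Surjective e := by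
    intro u
    obtain ⟨i, hi, h1⟩ := List.getElem_of_mem ((mem_verts (enc u)).2 ⟨u, rfl⟩)
    refine ⟨⟨i, hi⟩, enc_inj ?_⟩
    rw [he]
    exact h1
  let E : Fin V.length ≃ Vt (SG G) r K := Equiv.ofBijective e ⟨hinj, hsur⟩
  refine ⟨V.length, (EV (SG G) r K s F hF).comap E, ?_, ⟨⟨E, Iff.rfl⟩⟩⟩
  have key : ∀ i j : Fin V.length, eB r s L V[(i : ℕ)] V[(j : ℕ)] =
      decide (((EV (SG G) r K s F hF).comap E).Adj i j) := by
    intro i j
    rw [Bool.eq_iff_iff, decide_eq_true_iff, SimpleGraph.comap_adj]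
    have e1 : enc (e i) = V[(i : ℕ)] := he i
    have e2 : enc (e j) = V[(j : ℕ)] := he j
    rw [← e1, ← e2]
    exact eB_enc hF hL _ _
  have h1 : outM r s L K (matr G) = V.map fun u => V.map fun v => eB r s L u v := rfl
  rw [h1, ← List.ofFn_getElem_eq_map]
  have h2 : ∀ i : Fin V.length, (V.map fun v => eB r s L V[(i : ℕ)] v) =
      List.ofFn fun j : Fin V.length => decide (((EV (SG G) r K s F hF).comap E).Adj i j) := by
    intro i
    rw [← List.ofFn_getElem_eq_map]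
    exact congrArg List.ofFn (funext fun j => key i j)
  unfold matr
  refine congrArg List.ofFn (funext fun i => ?_)
  rw [h2]
  congr

end enc

end Pool.Agent.Y545.GI
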