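import Pool.Agent.Y545.GI5

set_option autoImplicit false

/-! Graph isomorphism on classes with flipped star or clique crossings. -/

namespace Pool.Agent.NPC.Y545GI

open Pool.Agent.Y545.GI
open Pool.Agent.Y545.Mon (In Kind Vx Flipped)

section poly

variable {α : Type} [TEnc α] {M : α → List (List Bool)} {K a b : α → ℕ} {c u v : α → Cd}

theorem poly_adjM (hM : Poly M) (ha : Poly a) (hb : Poly b) :
    Poly (fun x => adjM (M x) (a x) (b x)) :=
  Poly.getD (Poly.getD hM ha (Poly.const [])) hb (Poly.const false)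

theorem poly_colOK (hM : Poly M) (ha : Poly a) (hb : Poly b) :
    Poly (fun x => colOK (M x) (a x) (b x)) :=
  Poly.and (Poly.decide_lt ha (Poly.length hM)) <|
    Poly.or (Poly.and (Poly.decide_le (Poly.length hM) hb)
      (Poly.decide_lt hb (Poly.add (Poly.length hM) (Poly.const 3))))
      (Poly.and (Poly.decide_lt ha hb) (poly_adjM hM ha hb))

theorem poly_valid (r : ℕ) (hK : Poly K) (hM : Poly M) (hc : Poly c) :
    Poly (fun x => valid r (K x) (M x) (c x)) := by
  have h1 : Poly (fun x => (c x).1) := Poly.fst hc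
  have h2 : Poly (fun x => (c x).2.1) := Poly.fst (Poly.snd hc)
  have h3 : Poly (fun x => (c x).2.2.1) := Poly.fst (Poly.snd (Poly.snd hc))
  have h4 : Poly (fun x => (c x).2.2.2.1) := Poly.fst (Poly.snd (Poly.snd (Poly.snd hc)))
  have h5 : Poly (fun x => (c x).2.2.2.2) := Poly.snd (Poly.snd (Poly.snd (Poly.snd hc)))
  have eq0 : ∀ {f : α → ℕ} (k : ℕ), Poly f → Poly (fun x => decide (f x = k)) := fun k hf =>
    Poly.decide_eq hf (Poly.const k)
  exact Poly.or
    (Poly.and (eq0 0 h1) (Poly.and (Poly.decide_lt h2 (Poly.length hM)) (Poly.and (eq0 0 h3)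
      (Poly.and (eq0 0 h4) (eq0 0 h5)))))
    (Poly.or (Poly.and (eq0 1 h1) (Poly.and (poly_colOK hM h2 h3) (Poly.and (eq0 0 h4)
      (eq0 0 h5))))
    (Poly.or (Poly.and (eq0 2 h1) (Poly.and (Poly.decide_lt h5 (Poly.const r))
      (Poly.and (poly_colOK hM h3 h4) (Poly.or (Poly.decide_eq h2 h3)
        (Poly.and (Poly.decide_eq h2 h4) (Poly.decide_lt h2 (Poly.length hM)))))))
    (Poly.and (eq0 3 h1) (Poly.and (Poly.decide_lt h2 (Poly.const (r + 2)))
      (Poly.and (Poly.decide_lt h3 hK) (Poly.and (eq0 0 h4) (eq0 0 h5)))))))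

theorem poly_prod {β γ : Type} [TEnc β] [TEnc γ] {l : α → List β} {l' : α → List γ}
    (hl : Poly l) (hl' : Poly l') : Poly (fun x => l x ×ˢ l' x) :=
  Poly.flatMap (F := fun x b => (l' x).map (Prod.mk b)) hl
    (Poly.map (F := fun (p : α × β) c => (p.2, c)) (hl'.comp (Poly.fst Poly.id))
      (Poly.pair (Poly.snd (Poly.fst Poly.id)) (Poly.snd Poly.id)))

theorem poly_box (hK : UPoly K) : Poly (fun x => box (K x)) :=
  poly_prod hK.range (poly_prod hK.range (poly_prod hK.range (poly_prod hK.range hK.range)))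

theorem poly_verts (r : ℕ) (hK : UPoly K) (hM : Poly M) :
    Poly (fun x => verts r (K x) (M x)) :=
  Poly.filter (p := fun x c => valid r (K x) (M x) c)
    (poly_box (((hK.add (UPoly.const r)).add (UPoly.length hM)).add (UPoly.const 4)))
    (poly_valid r (hK.toPoly.comp (Poly.fst Poly.id)) (hM.comp (Poly.fst Poly.id))
      (Poly.snd Poly.id))

theorem poly_arcB (r : ℕ) (s : Bool) (hu : Poly u) (hv : Poly v) :
    Poly (fun x => arcB r s (u x) (v x)) := by
  have h1 : Poly (fun x => (u x).1) := Poly.fst hu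
  have h2 : Poly (fun x => (u x).2.1) := Poly.fst (Poly.snd hu)
  have h3 : Poly (fun x => (u x).2.2.1) := Poly.fst (Poly.snd (Poly.snd hu))
  have h4 : Poly (fun x => (u x).2.2.2.1) := Poly.fst (Poly.snd (Poly.snd (Poly.snd hu)))
  have h5 : Poly (fun x => (u x).2.2.2.2) := Poly.snd (Poly.snd (Poly.snd (Poly.snd hu)))
  have k1 : Poly (fun x => (v x).1) := Poly.fst hv
  have k2 : Poly (fun x => (v x).2.1) := Poly.fst (Poly.snd hv)
  have k3 : Poly (fun x => (v x).2.2.1) := Poly.fst (Poly.snd (Poly.snd hv))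
  have k4 : Poly (fun x => (v x).2.2.2.1) := Poly.fst (Poly.snd (Poly.snd (Poly.snd hv)))
  have k5 : Poly (fun x => (v x).2.2.2.2) := Poly.snd (Poly.snd (Poly.snd (Poly.snd hv)))
  have eq0 : ∀ {f : α → ℕ} (k : ℕ), Poly f → Poly (fun x => decide (f x = k)) := fun k hf =>
    Poly.decide_eq hf (Poly.const k)
  have cols : Poly (fun x => decide ((u x).2.2.1 = (v x).2.2.1) &&
      decide ((u x).2.2.2.1 = (v x).2.2.2.1)) :=
    Poly.and (Poly.decide_eq h3 k3) (Poly.decide_eq h4 k4)
  exact Poly.or
    (Poly.and (eq0 0 h1) (Poly.and (eq0 2 k1) (Poly.and (Poly.decide_eq h2 k2) (eq0 0 k5))))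
    (Poly.or (Poly.and (eq0 2 h1) (Poly.and (eq0 1 k1) (Poly.and
      (Poly.and (Poly.decide_eq k2 h3) (Poly.decide_eq k3 h4)) (eq0 r (Poly.succ h5)))))
    (Poly.and (eq0 2 h1) (Poly.and (eq0 2 k1) (Poly.or
      (Poly.and (Poly.decide_eq h2 k2) (Poly.and cols (Poly.decide_eq k5 (Poly.succ h5))))
      (Poly.and (Poly.const s) (Poly.or
        (Poly.and (Poly.decide_eq h2 k2) (Poly.and (Poly.not cols) (Poly.and (eq0 0 h5)
          (eq0 0 k5))))
        (Poly.and cols (Poly.and (Poly.not (Poly.decide_eq h2 k2)) (Poly.and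
          (eq0 r (Poly.succ h5)) (eq0 r (Poly.succ k5)))))))))))

theorem poly_layB (r : ℕ) (hu : Poly u) : Poly (fun x => layB r (u x)) := by
  have h1 : Poly (fun x => (u x).1) := Poly.fst hu
  have h2 : Poly (fun x => (u x).2.1) := Poly.fst (Poly.snd hu)
  have h5 : Poly (fun x => (u x).2.2.2.2) := Poly.snd (Poly.snd (Poly.snd (Poly.snd hu)))
  have eq0 : ∀ {f : α → ℕ} (k : ℕ), Poly f → Poly (fun x => decide (f x = k)) := fun k hf =>
    Poly.decide_eq hf (Poly.const k)
  exact Poly.cond (eq0 0 h1) (Poly.const 0) (Poly.cond (eq0 1 h1) (Poly.const (r + 1))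
    (Poly.cond (eq0 2 h1) (Poly.succ h5) h2))

theorem poly_eB (r : ℕ) (s : Bool) (L : List (ℕ × ℕ)) (hu : Poly u) (hv : Poly v) :
    Poly (fun x => eB r s L (u x) (v x)) :=
  Poly.and (Poly.not (Poly.decide_eq hu hv)) (Poly.xor
    (Poly.or (poly_arcB r s hu hv) (poly_arcB r s hv hu))
    ((Poly.decide_mem (Poly.pair (poly_layB r hu) (poly_layB r hv)) (Poly.const L)).congr
      fun _ => decide_eq_decide.2 Iff.rfl))

theorem poly_outM (r : ℕ) (s : Bool) (L : List (ℕ × ℕ)) (hK : UPoly K) (hM : Poly M) :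
    Poly (fun x => outM r s L (K x) (M x)) := by
  have h1 := poly_verts r hK hM
  refine Poly.map (F := fun x u => (verts r (K x) (M x)).map fun v => eB r s L u v) h1 ?_
  exact Poly.map (F := fun (p : α × Cd) v => eB r s L p.2 v) (h1.comp (Poly.fst Poly.id))
    (poly_eB r s L (Poly.snd (Poly.fst Poly.id)) (Poly.snd Poly.id))

/-- matrices of graphs -/
def wf (M : List (List Bool)) : Bool :=
  (List.range M.length).all fun a => decide ((M.getD a []).length = M.length) &&
    (List.range M.length).all fun b => !(adjM M a b ^^ adjM M b a) && !(decide (a = b) &&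
      adjM M a b)

theorem poly_wf (hM : Poly M) : Poly (fun x => wf (M x)) := by
  have hr := (UPoly.length hM).range
  refine Poly.all (p := fun x a => decide (((M x).getD a []).length = (M x).length) &&
    (List.range (M x).length).all fun b => !(adjM (M x) a b ^^ adjM (M x) b a) &&
      !(decide (a = b) && adjM (M x) a b)) hr ?_
  have hM1 : Poly (fun p : α × ℕ => M p.1) := hM.comp (Poly.fst Poly.id)
  refine Poly.and (Poly.decide_eq (Poly.length (Poly.getD hM1 (Poly.snd Poly.id)
    (Poly.const []))) (Poly.length hM1)) ?_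
  refine Poly.all (p := fun (p : α × ℕ) b => !(adjM (M p.1) p.2 b ^^ adjM (M p.1) b p.2) &&
      !(decide (p.2 = b) && adjM (M p.1) p.2 b)) (hr.comp (Poly.fst Poly.id)) ?_
  have hM2 : Poly (fun q : (α × ℕ) × ℕ => M q.1.1) := hM.comp (Poly.fst (Poly.fst Poly.id))
  have ha : Poly (fun q : (α × ℕ) × ℕ => q.1.2) := Poly.snd (Poly.fst Poly.id)
  have hb : Poly (fun q : (α × ℕ) × ℕ => q.2) := Poly.snd Poly.id
  exact Poly.and (Poly.not (Poly.xor (poly_adjM hM2 ha hb) (poly_adjM hM2 hb ha)))
    (Poly.not (Poly.and (Poly.decide_eq ha hb) (poly_adjM hM2 ha hb)))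

end poly

theorem wf_spec {M : List (List Bool)} (h : wf M = true) :
    ∀ a < M.length, (M.getD a []).length = M.length ∧ ∀ b < M.length,
      (adjM M a b = adjM M b a) ∧ (a = b → adjM M a b = false) := by
  unfold wf at h
  simp only [List.all_eq_true, List.mem_range, Bool.and_eq_true, decide_eq_true_eq,
    Bool.not_eq_true', Bool.and_eq_false_iff, decide_eq_false_iff_not] at h
  intro a ha
  obtain ⟨h1, h2⟩ := h a ha
  refine ⟨h1, fun b hb => ?_⟩
  obtain ⟨h3, h4⟩ := h2 b hb
  refine ⟨?_, fun hab => ?_⟩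
  · cases e1 : adjM M a b <;> cases e2 : adjM M b a <;> simp_all
  · rcases h4 with h4 | h4
    · exact absurd hab h4
    · exact h4

/-- the graph of a matrix -/
def gOf (M : List (List Bool)) (h : wf M = true) : SimpleGraph (Fin M.length) where
  Adj i j := adjM M i j = true
  symm := ⟨fun i j hij => by
    have h1 := ((wf_spec h i i.2).2 j j.2).1
    rw [← h1]
    exact hij⟩
  loopless := ⟨fun i hi => by
    have h1 := ((wf_spec h i i.2).2 i i.2).2 rfl
    rw [h1] at hi
    cases hi⟩

theorem matr_gOf (M : List (List Bool)) (h : wf M = true) : matr (gOf M h) = M := by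
  classical
  unfold matr
  refine List.ext_getElem (by simp) fun i h1 h2 => ?_
  rw [List.getElem_ofFn]
  have h3 := (wf_spec h i h2).1
  rw [List.getD_eq_getElem _ _ h2] at h3
  refine List.ext_getElem ((List.length_ofFn).trans h3.symm) fun j h4 h5 => ?_
  rw [List.getElem_ofFn, Bool.eq_iff_iff, decide_eq_true_iff]
  show adjM M i j = true ↔ _
  unfold adjM
  rw [List.getD_eq_getElem _ _ h2, List.getD_eq_getElem _ _ h5]

theorem wf_iff (M : List (List Bool)) :
    wf M = true ↔ ∃ (n : ℕ) (G : SimpleGraph (Fin n)), M = matr G := by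
  classical
  constructor
  · intro h
    exact ⟨M.length, gOf M h, (matr_gOf M h).symm⟩
  · rintro ⟨n, G, rfl⟩
    unfold wf
    simp only [List.all_eq_true, List.mem_range, Bool.and_eq_true, decide_eq_true_eq,
      Bool.not_eq_true', Bool.and_eq_false_iff, decide_eq_false_iff_not, matr_length]
    intro a ha
    refine ⟨?_, fun b hb => ⟨?_, ?_⟩⟩
    · unfold matr
      rw [List.getD_eq_getElem _ _ (by simpa using ha), List.getElem_ofFn]
      simp
    · have h1 : adjM (matr G) a b = adjM (matr G) b a := by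
        rw [Bool.eq_iff_iff, adjM_matr, adjM_matr]
        exact ⟨fun ⟨h1, h2, h3⟩ => ⟨h2, h1, h3.symm⟩, fun ⟨h1, h2, h3⟩ => ⟨h2, h1, h3.symm⟩⟩
      rw [h1]
      simp
    · by_cases hab : a = b
      · right
        rw [← Bool.not_eq_true, adjM_matr]
        rintro ⟨h1, h2, h3⟩
        subst hab
        exact G.irrefl h3
      · exact Or.inl hab

theorem matr_inj {n m : ℕ} {G : SimpleGraph (Fin n)} {H : SimpleGraph (Fin m)}
    (h : matr G = matr H) : Nonempty (G ≃g H) := by
  have hnm : n = m := by rw [← matr_length G, h, matr_length]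
  subst hnm
  refine ⟨⟨Equiv.refl _, fun {i j} => ?_⟩⟩
  have h1 := adjM_matr G i j
  have h2 := adjM_matr H i j
  rw [h] at h1
  constructor
  · intro h3
    obtain ⟨_, _, h4⟩ := h1.1 (h2.2 ⟨i.2, j.2, h3⟩)
    exact h4
  · intro h3
    obtain ⟨_, _, h4⟩ := h2.1 (h1.2 ⟨i.2, j.2, h3⟩)
    exact h4

/-- The bit string that codes a pair of graphs, given by their adjacency matrices. -/
noncomputable def code {n m : ℕ} (G : SimpleGraph (Fin n)) (H : SimpleGraph (Fin m)) :
    List Bool :=
  bits (matr G, matr H)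

/-- The graph isomorphism problem: the set of the codes of the pairs of isomorphic graphs. -/
def GraphIso : Set (List Bool) :=
  {x | ∃ (n m : ℕ) (G : SimpleGraph (Fin n)) (H : SimpleGraph (Fin m)), x = code G H ∧
    Nonempty (G ≃g H)}

theorem code_mem {n m : ℕ} (G : SimpleGraph (Fin n)) (H : SimpleGraph (Fin m)) :
    code G H ∈ GraphIso ↔ Nonempty (G ≃g H) := by
  constructor
  · rintro ⟨n', m', G', H', h1, ⟨φ⟩⟩
    have h2 : (matr G, matr H) = (matr G', matr H') := bits_injective h1
    rw [Prod.mk.injEq] at h2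
    obtain ⟨a⟩ := matr_inj h2.1
    obtain ⟨b⟩ := matr_inj h2.2
    exact ⟨(a.trans φ).trans b.symm⟩
  · exact fun h => ⟨n, m, G, H, rfl, h⟩

/-- A reduction of graph isomorphism to graph isomorphism on the class. -/
theorem reduction {𝒞 : (n : ℕ) → SimpleGraph (Fin n) → Prop} (h : Crossings 𝒞) :
    ∃ f : List Bool → List Bool, PolyTime f ∧ ∀ x, ∃ (n m : ℕ) (G : SimpleGraph (Fin n))
      (H : SimpleGraph (Fin m)), f x = code G H ∧ In 𝒞 G ∧ In 𝒞 H ∧
        (x ∈ GraphIso ↔ Nonempty (G ≃g H)) := by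
  classical
  obtain ⟨r, hr, s, F, hF, h1⟩ := h.cases
  -- the list of the flipped pairs of layers
  obtain ⟨L, hL⟩ : ∃ L : List (ℕ × ℕ), ∀ a b : Fin (r + 2), ((a : ℕ), (b : ℕ)) ∈ L ↔ F a b := by
    refine ⟨((Finset.univ : Finset (Fin (r + 2) × Fin (r + 2))).filter
      (fun p => F p.1 p.2)).toList.map (fun p => ((p.1 : ℕ), (p.2 : ℕ))), fun a b => ?_⟩
    rw [List.mem_map]
    constructor
    · rintro ⟨⟨a', b'⟩, h2, h3⟩
      rw [Finset.mem_toList, Finset.mem_filter] at h2
      simp only [Prod.mk.injEq] at h3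
      have e1 := Fin.ext h3.1
      have e2 := Fin.ext h3.2
      subst e1 e2
      exact h2.2
    · intro h2
      exact ⟨(a, b), by rw [Finset.mem_toList, Finset.mem_filter]; exact ⟨Finset.mem_univ _, h2⟩,
        rfl⟩
  -- pairs of graphs
  have pairs : ∀ {n m : ℕ} (G : SimpleGraph (Fin n)) (H : SimpleGraph (Fin m)) (K : ℕ),
      bnd r n ≤ K → bnd r m ≤ K → ∃ (n' m' : ℕ) (G' : SimpleGraph (Fin n'))
        (H' : SimpleGraph (Fin m')), bits (outM r s L K (matr G), outM r s L K (matr H)) =
          code G' H' ∧ In 𝒞 G' ∧ In 𝒞 H' ∧ (Nonempty (G ≃g H) ↔ Nonempty (G' ≃g H')) := by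
    intro n m G H K hG hH
    obtain ⟨n', G', e1, ⟨φ1⟩⟩ := outM_spec (G := G) (r := r) (K := K) (s := s) hF hL
    obtain ⟨m', H', e2, ⟨φ2⟩⟩ := outM_spec (G := H) (r := r) (K := K) (s := s) hF hL
    refine ⟨n', m', G', H', by rw [e1, e2]; rfl, (in_ev (SG G) hF h1).mono φ1.toEmbedding,
      (in_ev (SG H) hF h1).mono φ2.toEmbedding, ?_⟩
    rw [main G H hF hr hG hH]
    constructor
    · rintro ⟨φ⟩
      exact ⟨(φ1.trans φ).trans φ2.symm⟩
    · rintro ⟨φ⟩
      exact ⟨(φ1.symm.trans φ).trans φ2⟩
  -- two graphs that are not isomorphic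
  obtain ⟨n0, m0, G0, H0, -, hG0, hH0, hn0⟩ := pairs (⊥ : SimpleGraph (Fin 0))
    (⊥ : SimpleGraph (Fin 1)) (bnd r 0 + bnd r 1) (by omega) (by omega)
  have hn0 : ¬ Nonempty (G0 ≃g H0) := by
    rw [← hn0]
    rintro ⟨φ⟩
    exact (φ.symm 0).elim0
  let Kf : List (List Bool) × List (List Bool) → ℕ := fun p =>
    (p.1.length + (3 * p.1.length + p.1.length * p.1.length) +
      p.1.length * (3 * p.1.length + p.1.length * p.1.length) * r + 4) +
    (p.2.length + (3 * p.2.length + p.2.length * p.2.length) +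
      p.2.length * (3 * p.2.length + p.2.length * p.2.length) * r + 4)
  have hKf : UPoly Kf := by
    have l1 : UPoly (fun p : List (List Bool) × List (List Bool) => p.1.length) :=
      UPoly.length (Poly.fst Poly.id)
    have l2 : UPoly (fun p : List (List Bool) × List (List Bool) => p.2.length) :=
      UPoly.length (Poly.snd Poly.id)
    have key : ∀ {n : List (List Bool) × List (List Bool) → ℕ}, UPoly n →
        UPoly (fun p => n p + (3 * n p + n p * n p) + n p * (3 * n p + n p * n p) * r + 4) := by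
      intro n hn
      have h2 : UPoly (fun p => 3 * n p + n p * n p) := ((UPoly.const 3).mul hn).add (hn.mul hn)
      exact ((hn.add h2).add ((hn.mul h2).mul (UPoly.const r))).add (UPoly.const 4)
    exact (key l1).add (key l2)
  let g : List Bool → List (List Bool) × List (List Bool) := fun x =>
    match unbits (List (List Bool) × List (List Bool)) x with
    | none => (matr G0, matr H0)
    | some p => bif wf p.1 && wf p.2 then (outM r s L (Kf p) p.1, outM r s L (Kf p) p.2) else
      (matr G0, matr H0)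
  have hg : Poly g := by
    refine (Poly.optCases (o := unbits (List (List Bool) × List (List Bool)))
      (g := fun _ => (matr G0, matr H0)) (h := fun _ p => bif wf p.1 && wf p.2 then
      (outM r s L (Kf p) p.1, outM r s L (Kf p) p.2) else (matr G0, matr H0)) poly_unbits
      (Poly.const _) ?_).congr fun x => by
        simp only [g]
        cases unbits (List (List Bool) × List (List Bool)) x <;> rfl
    have h2 : Poly (fun q : List Bool × (List (List Bool) × List (List Bool)) => q.2) :=
      Poly.snd Poly.id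
    refine Poly.cond (Poly.and (poly_wf (Poly.fst h2)) (poly_wf (Poly.snd h2)))
      (Poly.pair (poly_outM r s L (hKf.comp h2) (Poly.fst h2))
        (poly_outM r s L (hKf.comp h2) (Poly.snd h2))) (Poly.const _)
  refine ⟨fun x => bits (g x), polyTime_bits hg, fun x => ?_⟩
  by_cases hx : ∃ (n m : ℕ) (G : SimpleGraph (Fin n)) (H : SimpleGraph (Fin m)), x = code G H
  · obtain ⟨n, m, G, H, rfl⟩ := hx
    have e1 : g (code G H) = (outM r s L (Kf (matr G, matr H)) (matr G),
        outM r s L (Kf (matr G, matr H)) (matr H)) := by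
      show (match unbits (List (List Bool) × List (List Bool)) (code G H) with
        | none => (matr G0, matr H0)
        | some p => bif wf p.1 && wf p.2 then (outM r s L (Kf p) p.1, outM r s L (Kf p) p.2) else
          (matr G0, matr H0)) = _
      unfold code
      rw [unbits_bits]
      simp only [(wf_iff _).2 ⟨n, G, rfl⟩, (wf_iff _).2 ⟨m, H, rfl⟩, Bool.and_self, cond_true]
    obtain ⟨n', m', G', H', e2, h2, h3, h4⟩ := pairs G H (Kf (matr G, matr H))
      (by simp only [Kf, matr_length]; unfold bnd; omega)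
      (by simp only [Kf, matr_length]; unfold bnd; omega)
    refine ⟨n', m', G', H', ?_, h2, h3, ?_⟩
    · show bits (g (code G H)) = _
      rw [e1, e2]
    · rw [code_mem, h4]
  · refine ⟨n0, m0, G0, H0, ?_, hG0, hH0, iff_of_false ?_ hn0⟩
    · show bits (g x) = bits (matr G0, matr H0)
      congr 1
      show (match unbits (List (List Bool) × List (List Bool)) x with
        | none => (matr G0, matr H0)
        | some p => bif wf p.1 && wf p.2 then (outM r s L (Kf p) p.1, outM r s L (Kf p) p.2) else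
          (matr G0, matr H0)) = _
      cases hu : unbits (List (List Bool) × List (List Bool)) x with
      | none => rfl
      | some p =>
        have h2 : (wf p.1 && wf p.2) = false := by
          rw [← Bool.not_eq_true, Bool.and_eq_true, wf_iff, wf_iff]
          rintro ⟨⟨n, G, h3⟩, ⟨m, H, h4⟩⟩
          refine hx ⟨n, m, G, H, ?_⟩
          rw [← bits_of_unbits hu]
          unfold code
          rw [← h3, ← h4]
        simp only [h2, cond_false]
    · rintro ⟨n, m, G, H, h2, -⟩
      exact hx ⟨n, m, G, H, h2⟩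

end Pool.Agent.NPC.Y545GI
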