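import Pool.Agent.H685R2.Msol.Machine
import Pool.Agent.Y545.MS1

/-!
Truth values of sentences written into the binary digits of the number of vertices, and finite
automata that read them off.
-/

namespace Pool.Agent.Y545.MS

open Pool.Agent.H685R2.Msol Filter

/-! ### choosing the number of isolated vertices -/

theorem exists_digits (i : ℕ) (τ : ℕ → Prop) :
    ∃ c < 2 ^ i, ∀ j < i, (Nat.testBit c j = true ↔ τ j) := by
  classical
  induction i with
  | zero => exact ⟨0, by simp, fun j hj => absurd hj (by omega)⟩
  | succ i ih =>
      obtain ⟨c, hc, hc'⟩ := ih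
      by_cases h : τ i
      · refine ⟨2 ^ i + c, by rw [pow_succ]; omega, fun j hj => ?_⟩
        rcases Nat.lt_succ_iff_lt_or_eq.1 hj with hj | rfl
        · rw [Nat.testBit_two_pow_add_gt hj, hc' j hj]
        · rw [Nat.testBit_two_pow_add_eq, Nat.testBit_lt_two_pow hc]
          simp [h]
      · refine ⟨c, by rw [pow_succ]; omega, fun j hj => ?_⟩
        rcases Nat.lt_succ_iff_lt_or_eq.1 hj with hj | rfl
        · exact hc' j hj
        · rw [Nat.testBit_lt_two_pow hc]
          simp [h]

theorem testBit_congr {i a b j : ℕ} (h : a % 2 ^ i = b % 2 ^ i) (hj : j < i) :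
    a.testBit j = b.testBit j := by
  have h1 := Nat.testBit_mod_two_pow a i j
  have h2 := Nat.testBit_mod_two_pow b i j
  rw [h, h2] at h1
  simpa [hj] using h1.symm

/-- a shift into a window of length `2 ^ i` with prescribed remainder -/
theorem exists_shift (n T i c : ℕ) (hc : c < 2 ^ i) :
    ∃ a, T ≤ a ∧ a < T + 2 ^ i ∧ (n + a) % 2 ^ i = c := by
  have hp : 0 < 2 ^ i := Nat.two_pow_pos i
  refine ⟨T + (c + 2 ^ i - (n + T) % 2 ^ i) % 2 ^ i, Nat.le_add_right _ _,
    Nat.add_lt_add_left (Nat.mod_lt _ hp) _, ?_⟩
  have h1 : (n + T) % 2 ^ i < 2 ^ i := Nat.mod_lt _ hp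
  rw [← Nat.add_assoc, Nat.add_mod, Nat.mod_mod, Nat.add_mod_mod,
    show (n + T) % 2 ^ i + (c + 2 ^ i - (n + T) % 2 ^ i) = c + 2 ^ i by omega,
    Nat.add_mod_right, Nat.mod_eq_of_lt hc]

/-- the number of isolated vertices -/
theorem exists_pad {V : Type} (H : SimpleGraph V) (n i T : ℕ) (φ : ℕ → Sentence)
    (hT : ∀ j < i, 2 ^ rank (φ j) ≤ T) :
    ∃ a, a < T + 2 ^ i ∧ ∀ j < i, (Models (pad H a) (φ j) ↔ (n + a).testBit j = true) := by
  obtain ⟨c, hc, hc'⟩ := exists_digits i (fun j => Models (pad H T) (φ j))
  obtain ⟨a, ha, ha', hac⟩ := exists_shift n T i c hc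
  refine ⟨a, ha', fun j hj => ?_⟩
  rw [← pad_stable H (φ j) T a (hT j hj) ha, ← hc' j hj]
  have : (n + a) % 2 ^ i = c % 2 ^ i := by rw [hac, Nat.mod_eq_of_lt hc]
  rw [testBit_congr this hj]

/-! ### finite automata -/

/-- a finite automaton that reads the encoding of a graph decides the truth of `φ` on `C` -/
def AutomatonOn (C : GraphClass) (φ : Sentence) : Prop :=
  ∃ (Q : Type) (_ : Fintype Q) (δ : Q → Bool → Q) (q0 : Q) (acc : Q → Bool),
    ∀ (n : ℕ) (G : SimpleGraph (Fin n)), C n G →
      (acc ((encode G).foldl δ q0) = true ↔ Models G φ)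

theorem AutomatonOn.polyTimeOn {C : GraphClass} {φ : Sentence} (h : AutomatonOn C φ) :
    PolyTimeOn C φ := by
  obtain ⟨Q, hQ, δ, q0, acc, h⟩ := h
  exact ⟨fun x => acc (x.foldl δ q0), dfa_polyTime δ q0 acc, h⟩

/-- counting the leading ones modulo `M` -/
def modStep (M : ℕ) [NeZero M] (q : Fin M × Bool) (a : Bool) : Fin M × Bool :=
  if q.2 = true then q
  else if a = true then (Fin.ofNat M (q.1 + 1), false)
  else (q.1, true)

theorem mod_done (M : ℕ) [NeZero M] (l : List Bool) (c : Fin M) :
    l.foldl (modStep M) (c, true) = (c, true) := by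
  induction l with
  | nil => rfl
  | cons a l ih => rw [List.foldl_cons]; simpa [modStep] using ih

theorem mod_ones (M : ℕ) [NeZero M] (n : ℕ) (l : List Bool) : ∀ (c : Fin M),
    (List.replicate n true ++ false :: l).foldl (modStep M) (c, false) =
      (Fin.ofNat M (c + n), true) := by
  induction n with
  | zero =>
      intro c
      rw [List.replicate_zero, List.nil_append, List.foldl_cons]
      have : modStep M (c, false) false = (c, true) := by simp [modStep]
      rw [this, mod_done]
      simp
  | succ n ih =>
      intro c
      rw [List.replicate_succ, List.cons_append, List.foldl_cons]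
      have : modStep M (c, false) true = (Fin.ofNat M (c + 1), false) := by simp [modStep]
      rw [this, ih]
      refine Prod.ext (Fin.ext ?_) rfl
      simp only [Fin.ofNat, Nat.mod_add_mod]
      congr 1
      ring

/-- remembering a word as long as it has length at most `L` -/
def memStep (L : ℕ) (q : Option {l : List Bool // l.length ≤ L}) (a : Bool) :
    Option {l : List Bool // l.length ≤ L} :=
  match q with
  | none => none
  | some l => if h : (l.1 ++ [a]).length ≤ L then some ⟨l.1 ++ [a], h⟩ else none

theorem mem_none (L : ℕ) (w : List Bool) : w.foldl (memStep L) none = none := by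
  induction w with
  | nil => rfl
  | cons a w ih => rw [List.foldl_cons]; exact ih

theorem mem_fold (L : ℕ) (w : List Bool) : ∀ l : {l : List Bool // l.length ≤ L},
    w.foldl (memStep L) (some l) =
      if h : (l.1 ++ w).length ≤ L then some ⟨l.1 ++ w, h⟩ else none := by
  induction w with
  | nil =>
      intro l
      have : (l.1 ++ ([] : List Bool)).length ≤ L := by simpa using l.2
      rw [dif_pos this]
      simp
  | cons a w ih =>
      intro l
      rw [List.foldl_cons]
      by_cases h : (l.1 ++ [a]).length ≤ L
      · have : memStep L (some l) a = some ⟨l.1 ++ [a], h⟩ := by simp only [memStep]; rw [dif_pos h]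
        rw [this, ih]
        simp
      · have : memStep L (some l) a = none := by simp only [memStep]; rw [dif_neg h]
        rw [this, mem_none, dif_neg]
        simp at h ⊢
        omega

theorem fold_prod {A Q R : Type} (f : Q → A → Q) (g : R → A → R) (w : List A) : ∀ (q : Q) (r : R),
    w.foldl (fun s a => (f s.1 a, g s.2 a)) (q, r) = (w.foldl f q, w.foldl g r) := by
  induction w with
  | nil => intro q r; rfl
  | cons a w ih => intro q r; rw [List.foldl_cons, List.foldl_cons, List.foldl_cons, ih]

/-! ### the encoding is injective -/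

theorem flatMap_inj {A B : Type} (f g : A → List B) (hlen : ∀ a, (f a).length = (g a).length)
    (l : List A) (h : l.flatMap f = l.flatMap g) : ∀ a ∈ l, f a = g a := by
  induction l with
  | nil => intro a ha; simp at ha
  | cons b l ih =>
      rw [List.flatMap_cons, List.flatMap_cons] at h
      obtain ⟨h1, h2⟩ := List.append_inj h (hlen b)
      intro a ha
      rcases List.mem_cons.1 ha with rfl | ha
      · exact h1
      · exact ih h2 a ha

theorem ones_inj (n m : ℕ) (l l' : List Bool)
    (h : List.replicate n true ++ false :: l = List.replicate m true ++ false :: l') :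
    n = m ∧ l = l' := by
  induction n generalizing m with
  | zero =>
      cases m with
      | zero => simpa using h
      | succ m => simp [List.replicate_succ] at h
  | succ n ih =>
      cases m with
      | zero => simp [List.replicate_succ] at h
      | succ m =>
          rw [List.replicate_succ, List.replicate_succ, List.cons_append, List.cons_append,
            List.cons_inj_right] at h
          obtain ⟨h1, h2⟩ := ih m h
          exact ⟨by rw [h1], h2⟩

theorem encode_inj {n m : ℕ} (G : SimpleGraph (Fin n)) (H : SimpleGraph (Fin m))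
    (h : encode G = encode H) : ∀ φ : Sentence, Models G φ ↔ Models H φ := by
  classical
  unfold encode at h
  obtain ⟨h1, h2⟩ := ones_inj _ _ _ _ h
  subst h1
  have h3 := flatMap_inj _ _ (fun a => by simp) _ h2
  have h4 : G = H := by
    ext i j
    have h5 := h3 i (List.mem_finRange i)
    have h6 := List.map_eq_map_iff.1 h5 j (List.mem_finRange j)
    simpa using h6
  rw [h4]
  exact fun _ => Iff.rfl

theorem length_encode {n : ℕ} (G : SimpleGraph (Fin n)) :
    (encode G).length = n + (1 + n * n) := by
  unfold encode
  simp only [List.length_append, List.length_replicate, List.length_cons, List.length_flatMap,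
    List.length_map, List.length_finRange]
  simp [List.sum_replicate, Nat.add_comm]

/-- A sentence whose truth value is, with finitely many exceptions, a fixed binary digit of the
number of vertices is decided by a finite automaton. -/
theorem automatonOn_of_digit (C : GraphClass) (φ : Sentence) (j B : ℕ)
    (h : ∀ (n : ℕ) (G : SimpleGraph (Fin n)), C n G → B < n →
      (Models G φ ↔ n.testBit j = true)) : AutomatonOn C φ := by
  classical
  set L := B + (1 + B * B) with hL
  have hfin : Finite {l : List Bool // l.length ≤ L} := (List.finite_length_le Bool L)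
  have hft : Fintype {l : List Bool // l.length ≤ L} := Fintype.ofFinite _
  have hM : NeZero (2 ^ (j + 1)) := ⟨(Nat.two_pow_pos _).ne'⟩
  refine ⟨Option {l : List Bool // l.length ≤ L} × (Fin (2 ^ (j + 1)) × Bool), inferInstance,
    fun s a => (memStep L s.1 a, modStep (2 ^ (j + 1)) s.2 a),
    (some ⟨[], Nat.zero_le _⟩, (Fin.ofNat _ 0, false)),
    fun s => match s.1 with
      | some l => decide (∃ (n : ℕ) (G : SimpleGraph (Fin n)), encode G = l.1 ∧ Models G φ)
      | none => (s.2.1 : ℕ).testBit j, ?_⟩
  intro n G hG
  rw [fold_prod, mem_fold]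
  by_cases hn : n ≤ B
  · have hlen : (([] : List Bool) ++ encode G).length ≤ L := by
      rw [List.nil_append, length_encode, hL]
      have := Nat.mul_le_mul hn hn
      omega
    rw [dif_pos hlen]
    simp only [List.nil_append]
    rw [decide_eq_true_iff]
    constructor
    · rintro ⟨m, H, hH, hφ⟩
      exact (encode_inj H G hH φ).1 hφ
    · intro hφ
      exact ⟨n, G, rfl, hφ⟩
  · have hlen : ¬ (([] : List Bool) ++ encode G).length ≤ L := by
      rw [List.nil_append, length_encode, hL]
      have h1 : B < n := by omega
      have := Nat.mul_le_mul h1.le h1.le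
      omega
    rw [dif_neg hlen]
    simp only
    rw [h n G hG (by omega)]
    unfold encode
    rw [mod_ones]
    simp only [Fin.ofNat, Nat.zero_mod, Nat.zero_add]
    rw [Nat.testBit_mod_two_pow]
    simp

end Pool.Agent.Y545.MS
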